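import Pool.Agent.Y860.BS.Stm

/-!
Bounded derivatives of compactly supported time-periodic smooth functions.
-/

open Set Filter Topology Real MeasureTheory
open scoped ContDiff NNReal

namespace Pool.Agent.Y860.BS

/-- A smooth function on `ℝⁿ × ℝ`, periodic in the second variable and supported in a cylinder, has
bounded derivatives. -/
lemma bounded_of_periodic {n : ℕ} {V : Sp n × ℝ → ℝ} (hV : ContDiff ℝ ∞ V) (R per : ℝ)
    (hper : 0 < per)
    (hout : ∀ x t, R < ‖x‖ → V (x, t) = 0) (hp : ∀ x t, V (x, t + per) = V (x, t)) (k : ℕ) :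
    ∃ C : ℝ, ∀ p, ‖iteratedFDeriv ℝ k V p‖ ≤ C := by
  have hcont : Continuous (iteratedFDeriv ℝ k V) :=
    hV.continuous_iteratedFDeriv (by exact_mod_cast le_top)
  obtain ⟨C, hC⟩ := ((isCompact_closedBall (0 : Sp n) R).prod
    (isCompact_Icc (a := (0 : ℝ)) (b := per))).exists_bound_of_continuousOn hcont.continuousOn
  refine ⟨max C 0, ?_⟩
  have hperiodic : ∀ p, iteratedFDeriv ℝ k V (p + (0, per)) = iteratedFDeriv ℝ k V p := by
    intro p
    rw [← iteratedFDeriv_comp_add_right]
    congr 1
    funext q
    have := hp q.1 q.2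
    have e : q + (0, per) = (q.1, q.2 + per) := by
      ext <;> simp
    rw [e]
    exact this
  have hint : ∀ (n : ℤ) (p : _ × ℝ), iteratedFDeriv ℝ k V (p + (0, n * per)) = iteratedFDeriv ℝ k V p := by
    intro n
    induction n using Int.induction_on with
    | zero =>
      intro p
      have e : p + (0, ((0 : ℤ) : ℝ) * per) = p := by
        ext <;> simp
      rw [e]
    | succ n ih =>
      intro p
      have e : p + (0, ((n : ℤ) + 1 : ℤ) * per) = (p + (0, (n : ℤ) * per)) + (0, per) := by
        apply Prod.ext
        · simp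
        · simp only [Prod.snd_add]
          push_cast
          ring
      rw [e, hperiodic, ih]
    | pred n ih =>
      intro p
      have e : (p + (0, (-(n : ℤ) - 1 : ℤ) * per)) + (0, per) = p + (0, (-(n : ℤ) : ℤ) * per) := by
        apply Prod.ext
        · simp
        · simp only [Prod.snd_add]
          push_cast
          ring
      rw [← hperiodic, e, ih]
  intro p
  by_cases hx : ‖p.1‖ ≤ R
  · -- reduce to the fundamental domain
    have h1 : iteratedFDeriv ℝ k V p = iteratedFDeriv ℝ k V (p.1, toIcoMod hper 0 p.2) := by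
      have := hint (-(toIcoDiv hper 0 p.2)) p
      rw [← this]
      congr 1
      apply Prod.ext
      · simp
      · simp only [Prod.snd_add, toIcoMod]
        push_cast
        simp only [zsmul_eq_mul]
        ring
    rw [h1]
    refine le_trans (hC _ ?_) (le_max_left _ _)
    have h2 := toIcoMod_mem_Ico hper 0 p.2
    simp only [zero_add] at h2
    exact ⟨by simpa using hx, h2.1, h2.2.le⟩
  · push Not at hx
    have h1 : V =ᶠ[𝓝 p] fun _ => 0 := by
      have : ∀ᶠ q : _ × ℝ in 𝓝 p, R < ‖q.1‖ :=
        ((continuous_norm.comp continuous_fst).tendsto p).eventually (lt_mem_nhds hx)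
      filter_upwards [this] with q hq
      exact hout q.1 q.2 hq
    have h2 : iteratedFDeriv ℝ k V p = 0 := by
      rw [(h1.iteratedFDeriv ℝ k).eq_of_nhds]
      simp
    rw [h2, norm_zero]
    exact le_max_right _ _

end Pool.Agent.Y860.BS
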