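import Mathlib

/-!
Time-dependent Schroedinger equation on `ℝⁿ`: definitions used in the statements.
-/

open Set Filter Topology MeasureTheory
open scoped ContDiff NNReal
open Laplacian InnerProductSpace

namespace Pool.Agent.Y860.BS

/-- `ℝⁿ` with the Euclidean norm -/
abbrev Sp (n : ℕ) : Type := EuclideanSpace ℝ (Fin n)

/-- `⟨x⟩ = (1 + |x|²)^{1/2}`. -/
noncomputable def jap {n : ℕ} (x : Sp n) : ℝ := Real.sqrt (1 + ‖x‖ ^ 2)

/-- `f ∈ L²(ℝⁿ)` -/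
def InL2 {n : ℕ} (f : Sp n → ℂ) : Prop := MemLp f 2 volume

/-- the norm of `L²(ℝⁿ)` (possibly `∞`) -/
noncomputable def l2norm {n : ℕ} (f : Sp n → ℂ) : ENNReal := eLpNorm f 2 volume

/-- `V(x,t)` is `C^∞` on `ℝⁿ × ℝ`, it and all its derivatives are bounded, and it is localized in
space uniformly in time: for every `N` there is `C_N` with `|V(x,t)| ≤ C_N ⟨x⟩^{-N}`. -/
structure SmoothLocalized {n : ℕ} (V : Sp n → ℝ → ℝ) : Prop where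
  smooth : ContDiff ℝ ∞ (fun p : Sp n × ℝ => V p.1 p.2)
  bounded : ∀ k : ℕ, ∃ C : ℝ, ∀ p : Sp n × ℝ,
    ‖iteratedFDeriv ℝ k (fun p : Sp n × ℝ => V p.1 p.2) p‖ ≤ C
  localized : ∀ N : ℕ, ∃ C : ℝ, ∀ (x : Sp n) (t : ℝ), |V x t| ≤ C / jap x ^ N

/-- Admissible potentials on `ℝⁿ`: smooth, bounded with bounded derivatives, localized,
`V ≥ 0` and `V ≢ 0`. -/
structure Admissible {n : ℕ} (V : Sp n → ℝ → ℝ) : Prop extends SmoothLocalized V where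
  nonneg : ∀ x t, 0 ≤ V x t
  ne_zero : ∃ x t, V x t ≠ 0

/-- `ψ(t,x)` is a solution of `i ∂_t ψ = -Δ ψ + V ψ` on `ℝⁿ × ℝ`, for all times, in the classical
sense (`ψ` is `C^∞` on `ℝ × ℝⁿ` and the equation holds at every point; `Δ` is Mathlib's Laplacian
in the variable `x`), with `ψ ∈ C(ℝ; L²(ℝⁿ))`: `ψ(t) ∈ L²` for all `t`, and `ψ(t) → ψ(t₀)` in `L²`
for `t → t₀`. -/
structure IsSolution {n : ℕ} (V : Sp n → ℝ → ℝ) (ψ : ℝ → Sp n → ℂ) : Prop where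
  smooth : ContDiff ℝ ∞ (fun p : ℝ × Sp n => ψ p.1 p.2)
  memLp : ∀ t, InL2 (ψ t)
  cont : ∀ t₀, Tendsto (fun t => l2norm (fun x => ψ t x - ψ t₀ x)) (𝓝 t₀) (𝓝 0)
  eqn : ∀ t x, Complex.I * deriv (fun s => ψ s x) t
    = -(Δ (ψ t)) x + (V x t : ℂ) * ψ t x

/-- A bound state (localized solution) with weight `⟨x⟩^δ`: a solution `ψ ≢ 0` for which the norm
of `⟨x⟩^δ ψ(t)` in `L²(ℝⁿ)` is bounded uniformly in `t ∈ ℝ`. -/
structure IsBoundState {n : ℕ} (V : Sp n → ℝ → ℝ) (δ : ℝ) (ψ : ℝ → Sp n → ℂ) : Prop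
    extends IsSolution V ψ where
  ne_zero : ∃ t x, ψ t x ≠ 0
  bound : ∃ C : ℝ≥0, ∀ t : ℝ,
    l2norm (fun x : Sp n => ((jap x ^ δ : ℝ) : ℂ) * ψ t x) ≤ C

end Pool.Agent.Y860.BS
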