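import Pool.Agent.Y860.BS.Main

/-!
Linearly independent families of powers of isotropic linear forms.
-/

open Set Filter Topology Real MeasureTheory Polynomial
open scoped ContDiff NNReal

namespace Pool.Agent.Y860.BS

lemma poly_indep (K m : ℕ) (hK : K ≤ m + 1) (a : Fin K → ℂ) (ha : Function.Injective a)
    (c : Fin K → ℂ) (h : ∀ u : ℝ, ∑ j, c j * (1 + a j * (u : ℂ)) ^ m = 0) : c = 0 := by
  classical
  let P : ℂ[X] := ∑ j, C (c j) * (1 + C (a j) * X) ^ m
  have hP : P = 0 := by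
    apply Polynomial.eq_zero_of_infinite_isRoot
    apply Set.Infinite.mono (s := Set.range (fun u : ℝ => (u : ℂ)))
    · rintro _ ⟨u, rfl⟩
      show P.IsRoot (u : ℂ)
      rw [Polynomial.IsRoot.def]
      simp only [P, Polynomial.eval_finset_sum, Polynomial.eval_mul, Polynomial.eval_C,
        Polynomial.eval_pow, Polynomial.eval_add, Polynomial.eval_one, Polynomial.eval_X]
      exact h u
    · exact Set.infinite_range_of_injective Complex.ofReal_injective
  have hcoef : ∀ l : ℕ, P.coeff l = (m.choose l : ℂ) * ∑ j, c j * a j ^ l := by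
    intro l
    simp only [P, Polynomial.finset_sum_coeff, Polynomial.coeff_C_mul]
    rw [Finset.mul_sum]
    apply Finset.sum_congr rfl
    intro j _
    have e : (1 + C (a j) * X : ℂ[X]) ^ m = ((1 + X : ℂ[X]) ^ m).comp (C (a j) * X) := by
      rw [Polynomial.pow_comp, Polynomial.add_comp, Polynomial.one_comp, Polynomial.X_comp]
    rw [e, Polynomial.comp_C_mul_X_coeff, Polynomial.coeff_one_add_X_pow]
    ring
  have hv : Matrix.vecMul c (Matrix.vandermonde a) = 0 := by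
    funext l
    have h1 := hcoef l
    rw [hP, Polynomial.coeff_zero] at h1
    have h2 : (m.choose (l : ℕ) : ℂ) ≠ 0 := by
      have : 0 < m.choose (l : ℕ) := Nat.choose_pos (by have := l.2; omega)
      exact_mod_cast this.ne'
    have h3 := (mul_eq_zero.mp h1.symm).resolve_left h2
    simpa [Matrix.vecMul, dotProduct, Matrix.vandermonde_apply] using h3
  exact Matrix.eq_zero_of_vecMul_eq_zero (Matrix.det_vandermonde_ne_zero_iff.mpr ha) hv

/-- an isotropic vector -/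
noncomputable def iso (n : ℕ) (a : ℝ) (k : Fin n) : ℂ :=
  if k.val = 0 then 1 else if k.val = 1 then (a : ℂ) else
    if k.val = 2 then (√(1 + a ^ 2) : ℂ) * Complex.I else 0

lemma iso_sq (n : ℕ) (hn : 3 ≤ n) (a : ℝ) : ∑ k, iso n a k ^ 2 = 0 := by
  obtain ⟨r, rfl⟩ := Nat.exists_eq_add_of_le' hn
  rw [Fin.sum_univ_succ, Fin.sum_univ_succ, Fin.sum_univ_succ]
  have h1 : ∀ i : Fin r, iso (r + 3) a i.succ.succ.succ ^ 2 = 0 := by
    intro i
    simp [iso]
  have h0 : iso (r + 3) a 0 ^ 2 = 1 := by simp [iso]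
  have h2 : iso (r + 3) a (Fin.succ 0) ^ 2 = (a : ℂ) ^ 2 := by simp [iso]
  have h3 : iso (r + 3) a (Fin.succ (Fin.succ 0)) ^ 2 = -(1 + (a : ℂ) ^ 2) := by
    have h4 : iso (r + 3) a (Fin.succ (Fin.succ 0)) = (√(1 + a ^ 2) : ℂ) * Complex.I := by
      have hv : ((Fin.succ (Fin.succ 0) : Fin (r + 3)) : ℕ) = 2 := rfl
      unfold iso
      rw [hv]
      simp
    rw [h4, mul_pow, Complex.I_sq, ← Complex.ofReal_pow, Real.sq_sqrt (by positivity)]
    push_cast
    ring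
  simp_rw [h1]
  rw [h0, h2, h3]
  simp

lemma lin_iso (n : ℕ) (hn : 3 ≤ n) (a u : ℝ) :
    lin (iso n a) (EuclideanSpace.single ⟨0, by omega⟩ 1
      + u • EuclideanSpace.single ⟨1, by omega⟩ (1 : ℝ)) = 1 + (a : ℂ) * (u : ℂ) := by
  rw [z_line]
  have h3 : lin (iso n a) (EuclideanSpace.single (⟨0, by omega⟩ : Fin n) (1 : ℝ)) = 1 := by
    have := z_line (iso n a) ⟨0, by omega⟩ 0 1
    simp only [zero_add, one_smul, Complex.ofReal_one, one_mul] at this
    rw [this]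
    simp [lin, iso]
  rw [h3]
  simp [iso]
  ring

lemma indep_three (n : ℕ) (hn : 3 ≤ n) (K m : ℕ) (hK : K ≤ m + 1) :
    LinearIndependent ℂ (fun (j : Fin K) (x : Sp n) => lin (iso n (j : ℝ)) x ^ m) := by
  rw [Fintype.linearIndependent_iff]
  intro c hc
  have h : ∀ u : ℝ, ∑ j : Fin K, c j * (1 + (((j : ℕ) : ℝ) : ℂ) * (u : ℂ)) ^ m = 0 := by
    intro u
    have h1 := congrFun hc (EuclideanSpace.single ⟨0, by omega⟩ 1
      + u • EuclideanSpace.single ⟨1, by omega⟩ (1 : ℝ))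
    simp only [Finset.sum_apply, Pi.smul_apply, smul_eq_mul, Pi.zero_apply] at h1
    rw [← h1]
    apply Finset.sum_congr rfl
    intro j _
    rw [lin_iso n hn]
  have h2 := poly_indep K m hK (fun j => (((j : ℕ) : ℝ) : ℂ)) (by
    intro i j hij
    have h' : (((i : ℕ) : ℝ) : ℂ) = (((j : ℕ) : ℝ) : ℂ) := hij
    apply Fin.ext
    exact_mod_cast h') c h
  intro i
  rw [h2]
  rfl

lemma indep_two (m : ℕ) (hm : Odd m) :
    LinearIndependent ℂ (fun (j : Fin 2) (x : Sp 2) =>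
      lin (if j = 0 then ![1, Complex.I] else ![1, -Complex.I]) x ^ m) := by
  rw [Fintype.linearIndependent_iff]
  intro c hc
  have h1 := congrFun hc (EuclideanSpace.single 0 1)
  have h2 := congrFun hc (EuclideanSpace.single 1 1)
  have hI : (-Complex.I) ^ m = -(Complex.I ^ m) := hm.neg_pow _
  simp [lin, hI] at h1 h2
  have hne : Complex.I ^ m ≠ 0 := pow_ne_zero _ Complex.I_ne_zero
  have h3 : c 0 - c 1 = 0 := by
    have : (c 0 - c 1) * Complex.I ^ m = 0 := by linear_combination h2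
    exact (mul_eq_zero.mp this).resolve_right hne
  have h4 : c 0 = 0 := by linear_combination (h1 + h3) / 2
  have h5 : c 1 = 0 := by linear_combination (h1 - h3) / 2
  intro i
  fin_cases i
  · exact h4
  · exact h5

/-- isotropic vectors with linearly independent powers -/
lemma exists_family (n : ℕ) (hn : 2 ≤ n) (K m : ℕ) (hK : 3 ≤ n ∨ K ≤ 2) (hKm : K ≤ m + 1)
    (hm : Odd m) : ∃ ζ : Fin K → Fin n → ℂ, (∀ j, ∑ k, ζ j k ^ 2 = 0) ∧ (∀ j, ∃ k, ζ j k ≠ 0) ∧
      LinearIndependent ℂ (fun (j : Fin K) (x : Sp n) => lin (ζ j) x ^ m) := by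
  rcases Nat.lt_or_ge 2 n with h | h
  · exact ⟨fun j => iso n (j : ℝ), fun j => iso_sq n h _, fun j => ⟨⟨0, by omega⟩, by simp [iso]⟩,
      indep_three n h K m hKm⟩
  · obtain rfl : n = 2 := by omega
    have hK2 : K ≤ 2 := by
      rcases hK with h' | h'
      · omega
      · exact h'
    refine ⟨fun j => if Fin.castLE hK2 j = 0 then ![1, Complex.I] else ![1, -Complex.I], ?_, ?_, ?_⟩
    · intro j
      by_cases hj : Fin.castLE hK2 j = 0 <;> simp [hj]
    · intro j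
      refine ⟨0, ?_⟩
      by_cases hj : Fin.castLE hK2 j = 0 <;> simp [hj]
    · have := (indep_two m hm).comp (Fin.castLE hK2) (Fin.castLE_injective hK2)
      exact this

lemma Rad.indep_psi (R : Rad) {n K : ℕ} (m : ℕ) (ζ : Fin K → Fin n → ℂ)
    (h : LinearIndependent ℂ (fun (j : Fin K) (x : Sp n) => lin (ζ j) x ^ m)) (t : ℝ) :
    LinearIndependent ℂ (fun j => R.psi m (ζ j) t) := by
  rw [Fintype.linearIndependent_iff] at h ⊢
  intro c hc
  apply h c
  funext x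
  have h1 := congrFun hc x
  simp only [Finset.sum_apply, Pi.smul_apply, smul_eq_mul, Pi.zero_apply] at h1 ⊢
  unfold Rad.psi at h1
  have h2 : (∑ j, c j * lin (ζ j) x ^ m) * R.Phi (‖x‖ ^ 2) t = 0 := by
    rw [Finset.sum_mul, ← h1]
    apply Finset.sum_congr rfl
    intro j _
    ring
  refine (mul_eq_zero.mp h2).resolve_right ?_
  unfold Rad.Phi
  split_ifs <;> exact Complex.exp_ne_zero _

/-- **Main theorem.** -/
theorem main (n : ℕ) (hn : 2 ≤ n) (K : ℕ) (hK : 3 ≤ n ∨ K ≤ 2) (δ : ℝ) (hδ : 0 < δ) :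
    ∃ V : Sp n → ℝ → ℝ, Admissible V ∧
      (∃ v : ℝ → ℝ → ℝ, ∀ x t, V x t = v ‖x‖ t) ∧
      (∃ ρ : ℝ, ∀ x t, ρ < ‖x‖ → V x t = 0) ∧
      (∃ T : ℝ, 0 < T ∧ ∀ x t, V x (t + T) = V x t) ∧
      ∃ ψ : Fin K → ℝ → Sp n → ℂ, (∀ j, IsBoundState V δ (ψ j)) ∧
        ∀ t, LinearIndependent ℂ (fun j => ψ j t) := by
  let m : ℕ := 2 * (⌈δ⌉₊ + K + 1) + 1
  have hm : Odd m := ⟨⌈δ⌉₊ + K + 1, rfl⟩
  obtain ⟨R, hR⟩ := exists_rad (n + 2 * m) (by simp only [m]; omega)
  obtain ⟨ζ, h1, h2, h3⟩ := exists_family n hn K m hK (by simp only [m]; omega) hm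
  have hδm : δ + 2 ≤ (m : ℝ) := by
    have h4 := Nat.le_ceil δ
    have h5 : ⌈δ⌉₊ + 2 ≤ m := by simp only [m]; omega
    have h6 : ((⌈δ⌉₊ : ℝ) + 2) ≤ m := by exact_mod_cast h5
    linarith
  exact ⟨R.pot n, R.admissible hn, ⟨fun r t => R.v (r ^ 2) t, fun x t => rfl⟩,
    ⟨R.r0 + 5, fun x t hx => R.pot_out x t hx⟩, ⟨R.D.per, R.D.per_pos, fun x t => R.pot_per x t⟩,
    fun j => R.psi m (ζ j), fun j => R.isBoundState hn m hR (ζ j) (h1 j) (h2 j) δ hδ.le hδm,
    fun t => R.indep_psi m ζ h3 t⟩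

end Pool.Agent.Y860.BS
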