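import Pool.Agent.Y860.BS.Stm

/-!
The curve in `L²` from a uniform majorant.
-/

open Set Filter Topology Real MeasureTheory
open scoped ContDiff NNReal

namespace Pool.Agent.Y860.BS

lemma jap_pos {n : ℕ} (x : Sp n) : 0 < jap x := by
  unfold jap
  positivity

lemma one_le_jap {n : ℕ} (x : Sp n) : 1 ≤ jap x := by
  unfold jap
  rw [Real.one_le_sqrt]
  nlinarith [sq_nonneg ‖x‖]

/-- the majorant -/
noncomputable def maj {n : ℕ} (C : ℝ) (x : Sp n) : ℝ := C * (1 + ‖x‖ ^ 2) ^ (-(n : ℝ) / 2)

lemma cont_maj {n : ℕ} (C : ℝ) : Continuous (fun x : Sp n => maj C x) := by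
  unfold maj
  apply continuous_const.mul
  apply Continuous.rpow_const (by fun_prop)
  intro x
  left
  positivity

lemma memLp_maj {n : ℕ} (hn : 1 ≤ n) (C : ℝ) : MemLp (fun x : Sp n => maj C x) 2 volume := by
  rw [memLp_two_iff_integrable_sq (cont_maj C).aestronglyMeasurable]
  have h1 : Integrable (fun x : Sp n => (1 + ‖x‖ ^ 2) ^ (-(2 * (n : ℝ)) / 2)) volume := by
    apply integrable_rpow_neg_one_add_norm_sq
    have : (1 : ℝ) ≤ n := by exact_mod_cast hn
    rw [finrank_euclideanSpace_fin]
    linarith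
  have h2 : (fun x : Sp n => maj C x ^ 2) = fun x : Sp n => C ^ 2 * (1 + ‖x‖ ^ 2) ^ (-(2 * (n : ℝ)) / 2) := by
    funext x
    unfold maj
    rw [mul_pow, ← Real.rpow_natCast ((1 + ‖x‖ ^ 2) ^ (-(n : ℝ) / 2)) 2, ← Real.rpow_mul (by positivity)]
    congr 2
    push_cast
    ring
  rw [h2]
  exact h1.const_mul _

theorem stL2 : StL2 := by
  intro n hn δ hδ ψ hψ C hC
  have hjd : ∀ x : Sp n, 1 ≤ jap x ^ δ := fun x => Real.one_le_rpow (one_le_jap x) hδ
  have hm : ∀ t x, ‖ψ t x‖ ≤ maj C x := by
    intro t x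
    have h1 := hC t x
    have h2 := hjd x
    unfold maj
    nlinarith [norm_nonneg (ψ t x)]
  have hm0 : ∀ x : Sp n, 0 ≤ maj C x := fun x => le_trans (norm_nonneg _) (hm 0 x)
  have hcont : ∀ t, Continuous (ψ t) := by
    intro t
    have h : Continuous (fun x : Sp n => (t, x)) := by fun_prop
    exact hψ.continuous.comp h
  have hmem : ∀ t, MemLp (ψ t) 2 volume := by
    intro t
    apply (memLp_maj hn C).mono (hcont t).aestronglyMeasurable
    refine Eventually.of_forall fun x => ?_
    rw [Real.norm_of_nonneg (hm0 x)]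
    exact hm t x
  refine ⟨hmem, ?_, ?_⟩
  · intro t0
    have e : ∀ t, l2norm (fun x => ψ t x - ψ t0 x)
        = (∫⁻ x, ‖ψ t x - ψ t0 x‖ₑ ^ (2 : ℝ)) ^ (1 / 2 : ℝ) := by
      intro t
      unfold l2norm
      rw [eLpNorm_eq_lintegral_rpow_enorm_toReal (by norm_num) (by norm_num)]
      simp
    simp_rw [e]
    have hz : (0 : ENNReal) = (∫⁻ x : Sp n, (0 : ENNReal)) ^ (1 / 2 : ℝ) := by simp
    rw [hz]
    apply ((ENNReal.continuous_rpow_const (y := 1 / 2)).tendsto _).comp
    -- dominated convergence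
    have hdom : ∀ t x, ‖ψ t x - ψ t0 x‖ ≤ 2 * maj C x := by
      intro t x
      have h1 := hm t x
      have h2 := hm t0 x
      have h4 := norm_sub_le (ψ t x) (ψ t0 x)
      linarith
    apply tendsto_lintegral_filter_of_dominated_convergence
      (bound := fun x => ‖2 * maj C x‖ₑ ^ (2 : ℝ))
    · refine Eventually.of_forall fun t => ?_
      have : Continuous fun x => ψ t x - ψ t0 x := (hcont t).sub (hcont t0)
      exact (this.enorm.measurable.pow_const _)
    · refine Eventually.of_forall fun t => Eventually.of_forall fun x => ?_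
      apply ENNReal.rpow_le_rpow _ (by norm_num)
      rw [enorm_le_iff_norm_le, Real.norm_of_nonneg (by have := hm0 x; positivity)]
      exact hdom t x
    · have h1 := ((memLp_maj hn C).const_mul 2).eLpNorm_lt_top
      rw [eLpNorm_eq_lintegral_rpow_enorm_toReal (by norm_num) (by norm_num)] at h1
      intro h2
      simp only [ENNReal.toReal_ofNat] at h1
      rw [h2] at h1
      simp at h1
    · refine Eventually.of_forall fun x => ?_
      have h1 : Continuous fun t => ψ t x := by
        have h : Continuous (fun t : ℝ => (t, x)) := by fun_prop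
        exact hψ.continuous.comp h
      have h2 : Continuous fun t => ‖ψ t x - ψ t0 x‖ₑ ^ (2 : ℝ) :=
        (ENNReal.continuous_rpow_const).comp (h1.sub continuous_const).enorm
      have h3 := h2.tendsto t0
      simpa using h3
  · have hf := (memLp_maj hn C).eLpNorm_lt_top
    refine ⟨(eLpNorm (fun x : Sp n => maj C x) 2 volume).toNNReal, fun t => ?_⟩
    rw [ENNReal.coe_toNNReal hf.ne]
    unfold l2norm
    apply eLpNorm_mono
    intro x
    rw [norm_mul, Complex.norm_real, Real.norm_of_nonneg (by have := hjd x; positivity),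
      Real.norm_of_nonneg (hm0 x)]
    exact hC t x

end Pool.Agent.Y860.BS
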