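import Pool.Agent.Y860.BS.Stm

/-!
The Laplacian of `(ζ · x)^m Φ(|x|²)`.
-/

open Set Filter Topology MeasureTheory
open scoped ContDiff NNReal
open Laplacian InnerProductSpace

namespace Pool.Agent.Y860.BS

lemma second_dir {n : ℕ} (f : Sp n → ℂ) (hf : ContDiff ℝ ∞ f) (f1 : Sp n → ℂ) (f2 : ℂ)
    (v x : Sp n) (h1 : ∀ y, HasDerivAt (fun s : ℝ => f (y + s • v)) (f1 y) 0)
    (h2 : HasDerivAt (fun s : ℝ => f1 (x + s • v)) f2 0) :
    iteratedFDeriv ℝ 2 f x ![v, v] = f2 := by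
  rw [iteratedFDeriv_two_apply]
  simp only [Matrix.cons_val_zero, Matrix.cons_val_one]
  have hd : Differentiable ℝ f := hf.differentiable (by simp)
  have hline : ∀ y : Sp n, HasDerivAt (fun s : ℝ => y + s • v) v 0 := by
    intro y
    have h := ((hasDerivAt_id (0 : ℝ)).smul_const v).const_add y
    simpa using h
  have e1 : ∀ y, fderiv ℝ f y v = f1 y := by
    intro y
    have h3 : HasFDerivAt f (fderiv ℝ f y) (y + (0 : ℝ) • v) := by
      rw [zero_smul, add_zero]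
      exact (hd y).hasFDerivAt
    have h4 := h3.comp_hasDerivAt (0 : ℝ) (hline y)
    exact h4.unique (h1 y)
  have hdd : Differentiable ℝ (fderiv ℝ f) :=
    (contDiff_infty_iff_fderiv.mp hf).2.differentiable (by simp)
  have h3 : HasFDerivAt (fderiv ℝ f) (fderiv ℝ (fderiv ℝ f) x) (x + (0 : ℝ) • v) := by
    rw [zero_smul, add_zero]
    exact (hdd x).hasFDerivAt
  have h4 := h3.comp_hasDerivAt (0 : ℝ) (hline x)
  have h5 := h4.clm_apply (hasDerivAt_const (0 : ℝ) v)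
  have e2 : (fun s : ℝ => (fderiv ℝ f ∘ fun s : ℝ => x + s • v) s v)
      = fun s : ℝ => f1 (x + s • v) := by
    funext s
    exact e1 _
  have h6 : HasDerivAt (fun s : ℝ => f1 (x + s • v)) (fderiv ℝ (fderiv ℝ f) x v v) 0 := by
    rw [← e2]
    refine h5.congr_deriv ?_
    simp
  exact h6.unique h2

lemma sum_sq {n : ℕ} (x : Sp n) : ∑ k, (x k : ℂ) ^ 2 = ((‖x‖ ^ 2 : ℝ) : ℂ) := by
  rw [EuclideanSpace.norm_sq_eq]
  push_cast
  apply Finset.sum_congr rfl
  intro k _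
  rw [← Complex.ofReal_pow, ← Complex.ofReal_pow, Real.norm_eq_abs, sq_abs]

lemma norm_line {n : ℕ} (y : Sp n) (k : Fin n) (s : ℝ) :
    ‖y + s • EuclideanSpace.single k (1 : ℝ)‖ ^ 2 = ‖y‖ ^ 2 + 2 * s * y k + s ^ 2 := by
  rw [norm_add_sq_real, norm_smul, PiLp.norm_single, inner_smul_right,
    EuclideanSpace.inner_single_right]
  simp
  ring

lemma coord_line {n : ℕ} (y : Sp n) (k l : Fin n) (s : ℝ) :
    (y + s • EuclideanSpace.single k (1 : ℝ)) l = y l + s * (if k = l then 1 else 0) := by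
  simp only [PiLp.add_apply, PiLp.smul_apply, smul_eq_mul]
  congr 2
  rw [EuclideanSpace.single_apply]
  by_cases h : k = l
  · simp [h]
  · rw [if_neg h, if_neg (fun h' => h h'.symm)]

lemma z_line {n : ℕ} (ζ : Fin n → ℂ) (k : Fin n) (y : Sp n) (s : ℝ) :
    lin ζ (y + s • EuclideanSpace.single k (1 : ℝ)) = lin ζ y + s * ζ k := by
  unfold lin
  simp_rw [coord_line]
  have : ∀ l, ζ l * (((y l + s * (if k = l then 1 else 0) : ℝ)) : ℂ)
      = ζ l * (y l : ℂ) + (if k = l then (s : ℂ) * ζ l else 0) := by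
    intro l
    split_ifs <;> push_cast <;> ring
  simp_rw [this]
  rw [Finset.sum_add_distrib]
  simp

lemma cd_lin {n : ℕ} (ζ : Fin n → ℂ) : ContDiff ℝ ∞ (lin ζ) := by
  unfold lin
  apply ContDiff.sum
  intro k _
  exact contDiff_const.mul
    (Complex.ofRealCLM.contDiff.comp (EuclideanSpace.proj (𝕜 := ℝ) k).contDiff)

theorem stLap : StLap := by
  intro n m ζ hζ Φ hΦ x
  have hf : ContDiff ℝ ∞ (fun y : Sp n => lin ζ y ^ m * Φ (‖y‖ ^ 2)) :=
    ((cd_lin ζ).pow m).mul (hΦ.comp (contDiff_norm_sq ℝ))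
  have hΦ' : ContDiff ℝ ∞ (deriv Φ) := (contDiff_infty_iff_deriv.mp hΦ).2
  have d0 : ∀ q, HasDerivAt Φ (deriv Φ q) q := fun q =>
    ((contDiff_infty_iff_deriv.mp hΦ).1 q).hasDerivAt
  have d1 : ∀ q, HasDerivAt (deriv Φ) (deriv (deriv Φ) q) q := fun q =>
    ((contDiff_infty_iff_deriv.mp hΦ').1 q).hasDerivAt
  -- one-variable derivatives along the line
  have hq : ∀ (y : Sp n) (k : Fin n), HasDerivAt
      (fun s : ℝ => ‖y + s • EuclideanSpace.single k (1 : ℝ)‖ ^ 2) (2 * y k) 0 := by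
    intro y k
    simp_rw [norm_line]
    have h1 : HasDerivAt (fun s : ℝ => ‖y‖ ^ 2 + 2 * s * y k + s ^ 2)
        (2 * 1 * y k + (2 : ℕ) * (0 : ℝ) ^ (2 - 1) * 1) 0 :=
      ((((hasDerivAt_id (0 : ℝ)).const_mul 2).mul_const (y k)).const_add (‖y‖ ^ 2)).add
        ((hasDerivAt_id (0 : ℝ)).pow 2)
    refine h1.congr_deriv ?_
    simp
  have hzd : ∀ (y : Sp n) (k : Fin n), HasDerivAt
      (fun s : ℝ => lin ζ (y + s • EuclideanSpace.single k (1 : ℝ))) (ζ k) 0 := by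
    intro y k
    simp_rw [z_line]
    have h1 := (((hasDerivAt_id (0 : ℝ)).ofReal_comp).mul_const (ζ k)).const_add (lin ζ y)
    refine h1.congr_deriv ?_
    simp
  have hc : ∀ (y : Sp n) (k : Fin n), HasDerivAt
      (fun s : ℝ => (((y + s • EuclideanSpace.single k (1 : ℝ)) k : ℝ) : ℂ)) 1 0 := by
    intro y k
    have e : (fun s : ℝ => (((y + s • EuclideanSpace.single k (1 : ℝ)) k : ℝ) : ℂ))
        = fun s : ℝ => ((y k + s : ℝ) : ℂ) := by
      funext s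
      rw [coord_line, if_pos rfl, mul_one]
    rw [e]
    have h1 := ((hasDerivAt_id (0 : ℝ)).const_add (y k)).ofReal_comp
    refine h1.congr_deriv ?_
    simp
  have hP0 : ∀ (y : Sp n) (k : Fin n), HasDerivAt
      (fun s : ℝ => Φ (‖y + s • EuclideanSpace.single k (1 : ℝ)‖ ^ 2))
      (deriv Φ (‖y‖ ^ 2) * (2 * (y k : ℂ))) 0 := by
    intro y k
    have h0 : HasDerivAt Φ (deriv Φ (‖y‖ ^ 2))
        (‖y + (0 : ℝ) • EuclideanSpace.single k (1 : ℝ)‖ ^ 2) := by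
      rw [zero_smul, add_zero]
      exact d0 _
    have h1 := h0.scomp (0 : ℝ) (hq y k)
    refine h1.congr_deriv ?_
    rw [Complex.real_smul]
    push_cast
    ring
  have hP1 : ∀ (y : Sp n) (k : Fin n), HasDerivAt
      (fun s : ℝ => deriv Φ (‖y + s • EuclideanSpace.single k (1 : ℝ)‖ ^ 2))
      (deriv (deriv Φ) (‖y‖ ^ 2) * (2 * (y k : ℂ))) 0 := by
    intro y k
    have h0 : HasDerivAt (deriv Φ) (deriv (deriv Φ) (‖y‖ ^ 2))
        (‖y + (0 : ℝ) • EuclideanSpace.single k (1 : ℝ)‖ ^ 2) := by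
      rw [zero_smul, add_zero]
      exact d1 _
    have h1 := h0.scomp (0 : ℝ) (hq y k)
    refine h1.congr_deriv ?_
    rw [Complex.real_smul]
    push_cast
    ring
  set z : Sp n → ℂ := lin ζ with hzdef
  let f1 : Fin n → Sp n → ℂ := fun k y => (m : ℂ) * z y ^ (m - 1) * ζ k * Φ (‖y‖ ^ 2)
    + z y ^ m * (deriv Φ (‖y‖ ^ 2) * (2 * (y k : ℂ)))
  let f2 : Fin n → ℂ := fun k => (m : ℂ) * ((m - 1 : ℕ) : ℂ) * z x ^ (m - 1 - 1) * Φ (‖x‖ ^ 2)
      * ζ k ^ 2
    + 4 * (m : ℂ) * z x ^ (m - 1) * deriv Φ (‖x‖ ^ 2) * (ζ k * (x k : ℂ))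
    + 4 * z x ^ m * deriv (deriv Φ) (‖x‖ ^ 2) * (x k : ℂ) ^ 2
    + 2 * z x ^ m * deriv Φ (‖x‖ ^ 2)
  have hz0 : ∀ (y : Sp n) (k : Fin n), z (y + (0 : ℝ) • EuclideanSpace.single k (1 : ℝ)) = z y := by
    intro y k
    rw [zero_smul, add_zero]
  have hpow : ∀ (r : ℕ) (y : Sp n) (k : Fin n), HasDerivAt
      (fun s : ℝ => z (y + s • EuclideanSpace.single k (1 : ℝ)) ^ r)
      ((r : ℂ) * z y ^ (r - 1) * ζ k) 0 := by
    intro r y k
    have h1 : HasDerivAt (fun s : ℝ => z (y + s • EuclideanSpace.single k (1 : ℝ))) (ζ k) 0 :=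
      hzd y k
    have h2 := h1.pow r
    rw [hz0] at h2
    exact h2
  have H1 : ∀ (k : Fin n) (y : Sp n), HasDerivAt (fun s : ℝ =>
      (fun y : Sp n => z y ^ m * Φ (‖y‖ ^ 2)) (y + s • EuclideanSpace.single k (1 : ℝ)))
      (f1 k y) 0 := by
    intro k y
    have h := (hpow m y k).mul (hP0 y k)
    refine h.congr_deriv ?_
    simp only [zero_smul, add_zero]
    rfl
  have H2 : ∀ (k : Fin n), HasDerivAt (fun s : ℝ =>
      f1 k (x + s • EuclideanSpace.single k (1 : ℝ))) (f2 k) 0 := by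
    intro k
    have a1 := (((hpow (m - 1) x k).const_mul (m : ℂ)).mul_const (ζ k)).mul (hP0 x k)
    have a2 := (hpow m x k).mul ((hP1 x k).mul ((hc x k).const_mul 2))
    have h := a1.add a2
    refine h.congr_deriv ?_
    simp only [Pi.mul_apply, zero_smul, add_zero, f2]
    ring
  rw [laplacian_eq_iteratedFDeriv_orthonormalBasis _ (EuclideanSpace.basisFun (Fin n) ℝ)]
  have hsum : ∀ k, iteratedFDeriv ℝ 2 (fun y : Sp n => z y ^ m * Φ (‖y‖ ^ 2)) x
      ![EuclideanSpace.basisFun (Fin n) ℝ k, EuclideanSpace.basisFun (Fin n) ℝ k] = f2 k := by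
    intro k
    rw [EuclideanSpace.basisFun_apply]
    exact second_dir _ hf (f1 k) (f2 k) _ x (H1 k) (H2 k)
  show ∑ k, iteratedFDeriv ℝ 2 (fun y : Sp n => z y ^ m * Φ (‖y‖ ^ 2)) x
      ![EuclideanSpace.basisFun (Fin n) ℝ k, EuclideanSpace.basisFun (Fin n) ℝ k] = _
  simp_rw [hsum]
  simp only [f2]
  have hlin : ∑ k, ζ k * (x k : ℂ) = z x := rfl
  rw [Finset.sum_add_distrib, Finset.sum_add_distrib, Finset.sum_add_distrib,
    ← Finset.mul_sum, ← Finset.mul_sum, ← Finset.mul_sum, hζ, hlin, sum_sq]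
  simp only [Finset.sum_const, Finset.card_univ, Fintype.card_fin, nsmul_eq_mul]
  have hzz : (m : ℂ) * z x ^ (m - 1) * z x = (m : ℂ) * z x ^ m := by
    rcases Nat.eq_zero_or_pos m with h | h
    · subst h
      simp
    · obtain ⟨r, rfl⟩ := Nat.exists_eq_add_of_le' h
      rw [show r + 1 - 1 = r by omega, pow_succ]
      ring
  push_cast
  linear_combination (4 * deriv Φ (‖x‖ ^ 2)) * hzz

end Pool.Agent.Y860.BS
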