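import Pool.Agent.Y860.BS.Phi
import Pool.Agent.Y860.BS.Lap
import Pool.Agent.Y860.BS.Bdd
import Pool.Agent.Y860.BS.L2

/-!
Assembly: radial, compactly supported, time-periodic admissible potentials on `ℝⁿ` with bound states.
-/

open Set Filter Topology Real MeasureTheory
open scoped ContDiff NNReal
open Laplacian InnerProductSpace

namespace Pool.Agent.Y860.BS

open Pool.Agent.H3R2

variable (R : Rad)

lemma norm_exp_AB (a b : ℝ) : ‖Complex.exp ((a : ℂ) + (b : ℂ) * Complex.I)‖ = exp a := by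
  rw [Complex.norm_exp]
  simp

lemma log_X1_le (x t : ℝ) : -(log (X1 R.D.P R.D.P.nu (R.D.y (x, t)) t) / 2) ≤ 1 := by
  have h1 := (X1_bd R.D.P R.D.P.nu (R.D.y (x, t)) t).1
  have h2 : log (1 / 2) ≤ log (X1 R.D.P R.D.P.nu (R.D.y (x, t)) t) := log_le_log (by norm_num) h1
  have h3 : -1 ≤ log (1 / 2 : ℝ) := by
    rw [one_div, log_inv]
    have := Real.log_two_lt_d9
    linarith
  linarith

/-- decay of `Φ` -/
lemma Rad.decay : ∃ C : ℝ, 0 < C ∧ ∀ q t : ℝ, 0 ≤ q →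
    ‖R.Phi q t‖ ≤ C * (1 + q) ^ (-((R.N : ℝ) - 2) / 2) := by
  have hN := R.N_ge
  have hr0 : R.r0 = (R.N : ℝ) + 20 := rfl
  obtain ⟨G, hG⟩ := (isCompact_Icc (a := (-R.r0 - 7)) (b := R.r0 + 7)).exists_bound_of_continuousOn
    R.D.hg.continuous.continuousOn
  -- bound for the logarithm
  set e : ℝ := ((R.N : ℝ) - 2) / 2 with he
  have he0 : 0 ≤ e := by
    rw [he]
    linarith
  let M1 : ℝ := |R.c0| + e * log 5
  let M2 : ℝ := G + 1 + e * log (1 + (R.r0 + 6) ^ 2)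
  let M3 : ℝ := |R.D.g 5 + R.k * log (R.r0 + 5)| + e * log 2
  have key : ∀ q t : ℝ, 0 ≤ q → ∃ a b : ℝ, R.Phi q t = Complex.exp ((a : ℂ) + (b : ℂ) * Complex.I) ∧
      a + e * log (1 + q) ≤ max M1 (max M2 M3) := by
    intro q t hq
    rcases lt_or_ge q 4 with h | h
    · refine ⟨R.c0, 0, ?_, ?_⟩
      · rw [R.Phi_lt h]
        simp
      · apply le_max_of_le_left
        have h1 : log (1 + q) ≤ log 5 := log_le_log (by linarith) (by linarith)
        have h2 := le_abs_self R.c0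
        have h3 := mul_le_mul_of_nonneg_left h1 he0
        simp only [M1]
        linarith
    · have hq1 : 1 < q := by linarith
      refine ⟨R.A q t, R.B q t, R.Phi_eq hq1 t, ?_⟩
      have hs := sqrt_gt hq1
      apply le_max_of_le_right
      rcases le_or_gt q ((R.r0 + 6) ^ 2) with h6 | h6
      · apply le_max_of_le_left
        have h7 : √q ≤ R.r0 + 6 := by
          rw [Real.sqrt_le_left (by linarith)]
          exact h6
        have h8 : |R.D.y (√q - R.r0, t)| ≤ R.r0 + 7 := by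
          have h3 := X_sub R.D.P R.D.P.nu (R.D.y (√q - R.r0, t)) t
          rw [R.D.hXy] at h3
          rw [abs_le] at *
          constructor <;> linarith
        have h9 := hG (R.D.y (√q - R.r0, t)) (by
          have := abs_le.mp h8
          constructor <;> linarith)
        have h10 := le_trans (le_abs_self _) h9
        have h11 := log_X1_le R (√q - R.r0) t
        have h12 : 0 ≤ R.k' * log √q := by
          apply mul_nonneg
          · unfold Rad.k'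
            linarith
          · exact log_nonneg hs.le
        have h13 : log (1 + q) ≤ log (1 + (R.r0 + 6) ^ 2) := log_le_log (by linarith) (by linarith)
        have h14 := mul_le_mul_of_nonneg_left h13 he0
        unfold Rad.A Dat.h
        simp only [M2]
        linarith
      · apply le_max_of_le_right
        have h7 : R.r0 + 6 < √q := by
          rw [Real.lt_sqrt (by linarith)]
          exact h6
        have h8 : R.A q t = R.D.g 5 + R.k * log (R.r0 + 5) - e * log q := by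
          unfold Rad.A
          rw [R.h_out _ t (by rw [abs_of_pos (by linarith)]; linarith),
            R.g_right _ (by linarith), show R.r0 + (√q - R.r0) = √q by ring,
            Real.log_sqrt (by linarith)]
          unfold Rad.k Rad.k'
          rw [he]
          ring
        rw [h8]
        have h9 : log (1 + q) ≤ log 2 + log q := by
          rw [← log_mul (by norm_num) (by linarith)]
          exact log_le_log (by linarith) (by linarith)
        have h10 := mul_le_mul_of_nonneg_left h9 he0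
        have h11 := le_abs_self (R.D.g 5 + R.k * log (R.r0 + 5))
        simp only [M3]
        nlinarith
  refine ⟨exp (max M1 (max M2 M3)), exp_pos _, fun q t hq => ?_⟩
  obtain ⟨a, b, h1, h2⟩ := key q t hq
  rw [h1, norm_exp_AB]
  have h3 : (1 + q) ^ (-((R.N : ℝ) - 2) / 2) = exp (-(e * log (1 + q))) := by
    rw [Real.rpow_def_of_pos (by linarith)]
    congr 1
    rw [he]
    ring
  rw [h3, ← exp_add]
  apply exp_le_exp.mpr
  linarith

/-! ### the potential and the solutions on `ℝⁿ` -/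

variable {n : ℕ}

noncomputable def Rad.pot (n : ℕ) (x : Sp n) (t : ℝ) : ℝ := R.v (‖x‖ ^ 2) t

noncomputable def Rad.psi (m : ℕ) (ζ : Fin n → ℂ) (t : ℝ) (x : Sp n) : ℂ :=
  lin ζ x ^ m * R.Phi (‖x‖ ^ 2) t

lemma Rad.cd_pot : ContDiff ℝ ∞ (fun p : Sp n × ℝ => R.pot n p.1 p.2) := by
  have h : ContDiff ℝ ∞ (fun p : Sp n × ℝ => (‖p.1‖ ^ 2, p.2)) :=
    ((contDiff_norm_sq ℝ).comp contDiff_fst).prodMk contDiff_snd
  exact R.cdv.comp h

lemma Rad.cd_psi (m : ℕ) (ζ : Fin n → ℂ) :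
    ContDiff ℝ ∞ (fun p : ℝ × Sp n => R.psi m ζ p.1 p.2) := by
  have h : ContDiff ℝ ∞ (fun p : ℝ × Sp n => (‖p.2‖ ^ 2, p.1)) :=
    ((contDiff_norm_sq ℝ).comp contDiff_snd).prodMk contDiff_fst
  exact (((cd_lin ζ).comp contDiff_snd).pow m).mul (R.cdPhi.comp h)

lemma Rad.pot_out (x : Sp n) (t : ℝ) (hx : R.r0 + 5 < ‖x‖) : R.pot n x t = 0 := by
  have hN := R.N_ge
  have hr0 : R.r0 = (R.N : ℝ) + 20 := rfl
  apply R.v_out
  nlinarith

lemma Rad.pot_per (x : Sp n) (t : ℝ) : R.pot n x (t + R.D.per) = R.pot n x t := R.v_per _ _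

lemma Rad.smoothLocalized : SmoothLocalized (R.pot n) := by
  have hb := bounded_of_periodic (R.cd_pot (n := n)) (R.r0 + 5) R.D.per R.D.per_pos
    (fun x t hx => R.pot_out x t hx) (fun x t => R.pot_per x t)
  refine ⟨R.cd_pot, hb, ?_⟩
  intro N
  obtain ⟨C, hC⟩ := hb 0
  set J : ℝ := Real.sqrt (1 + (R.r0 + 5) ^ 2) with hJ
  refine ⟨C * J ^ N, fun x t => ?_⟩
  have hC' : |R.pot n x t| ≤ C := by
    have := hC (x, t)
    rwa [norm_iteratedFDeriv_zero] at this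
  have hC0 : 0 ≤ C := le_trans (abs_nonneg _) hC'
  have hj := jap_pos x
  by_cases hx : ‖x‖ ≤ R.r0 + 5
  · rw [le_div_iff₀ (by positivity)]
    have h1 : jap x ≤ J := by
      unfold jap
      apply Real.sqrt_le_sqrt
      have := norm_nonneg x
      nlinarith
    exact mul_le_mul hC' (pow_le_pow_left₀ hj.le h1 N) (by positivity) hC0
  · push Not at hx
    rw [R.pot_out x t hx, abs_zero]
    positivity

lemma Rad.admissible (hn : 2 ≤ n) : Admissible (R.pot n) := by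
  refine ⟨R.smoothLocalized, fun x t => R.v_nonneg _ _, ?_⟩
  have hN := R.N_ge
  have hr0 : R.r0 = (R.N : ℝ) + 20 := rfl
  let r : ℝ := R.r0 + X R.D.P R.D.P.nu 0 0
  have hX := abs_le.mp (X_sub R.D.P R.D.P.nu 0 0)
  have hr : (R.N : ℝ) + 19 ≤ r := by
    simp only [r]
    linarith
  refine ⟨EuclideanSpace.single ⟨0, by omega⟩ r, 0, ?_⟩
  have hnorm : ‖(EuclideanSpace.single ⟨0, by omega⟩ r : Sp n)‖ ^ 2 = r ^ 2 := by
    rw [PiLp.norm_single, Real.norm_eq_abs, sq_abs]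
  unfold Rad.pot
  rw [hnorm, R.v_eq (by nlinarith), Real.sqrt_sq (by linarith)]
  unfold Dat.V
  simp only
  rw [show r - R.r0 = X R.D.P R.D.P.nu 0 0 by simp only [r]; ring, R.D.hyX,
    Vh_core R.D.P R.D.w (fun s hs => by rw [R.w_eq]; exact prof_mid _ _ _ _ s hs) 0 0 (by simp)]
  have h1 := R.D.P.nu_sq
  have h2 := R.D.P.E_ge
  have h3 : -R.D.P.E + (R.D.P.E * 0) ^ 2 - 1 + R.D.P.nu ^ 2 * (R.D.P.a ^ 2 / 8 + R.D.P.a * 0 *
      cos (R.D.P.nu * 0) / 2) = 3 * R.D.P.E - 1 := by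
    linear_combination (1 / 8 : ℝ) * h1
  rw [h3]
  have hrp : 0 < r := by linarith
  have h4 : R.c / r ^ 2 ≤ 1 := by
    rw [div_le_one (by positivity)]
    unfold Rad.c
    nlinarith
  linarith

/-! ### the equation -/

lemma Rad.eqn (m : ℕ) (hm : R.N = n + 2 * m) (ζ : Fin n → ℂ) (hζ : ∑ k, ζ k ^ 2 = 0) (t : ℝ)
    (x : Sp n) : Complex.I * deriv (fun s => R.psi m ζ s x) t
      = -(Δ (R.psi m ζ t)) x + (R.pot n x t : ℂ) * R.psi m ζ t x := by
  have h1 : deriv (fun s => R.psi m ζ s x) t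
      = lin ζ x ^ m * deriv (fun s => R.Phi (‖x‖ ^ 2) s) t := by
    unfold Rad.psi
    rw [deriv_const_mul_field]
  have hcd : ContDiff ℝ ∞ (fun q : ℝ => R.Phi q t) := by
    have h : ContDiff ℝ ∞ (fun q : ℝ => (q, t)) := contDiff_id.prodMk contDiff_const
    exact R.cdPhi.comp h
  have h2 := stLap n m ζ hζ (fun q => R.Phi q t) hcd x
  have h3 : (Δ (R.psi m ζ t)) x = (Δ (fun y : Sp n => lin ζ y ^ m * (fun q => R.Phi q t) (‖y‖ ^ 2))) x :=
    rfl
  have h4 := R.pde (‖x‖ ^ 2) t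
  rw [h3, h2, h1]
  have h5 : (R.N : ℂ) = (n : ℂ) + 2 * (m : ℂ) := by
    rw [hm]
    push_cast
    ring
  rw [h5] at h4
  unfold Rad.pot Rad.psi
  push_cast at h4 ⊢
  linear_combination (lin ζ x ^ m) * h4

/-! ### decay -/

lemma lin_le (ζ : Fin n → ℂ) (x : Sp n) : ‖lin ζ x‖ ≤ (∑ k, ‖ζ k‖) * ‖x‖ := by
  unfold lin
  refine (norm_sum_le _ _).trans ?_
  rw [Finset.sum_mul]
  apply Finset.sum_le_sum
  intro k _
  rw [norm_mul]
  apply mul_le_mul_of_nonneg_left _ (norm_nonneg _)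
  rw [Complex.norm_real]
  exact PiLp.norm_apply_le x k

lemma Rad.majorant (m : ℕ) (hm : R.N = n + 2 * m) (ζ : Fin n → ℂ) (δ : ℝ)
    (hδm : δ + 2 ≤ m) : ∃ C : ℝ, ∀ t x, jap x ^ δ * ‖R.psi m ζ t x‖
      ≤ C * (1 + ‖x‖ ^ 2) ^ (-(n : ℝ) / 2) := by
  obtain ⟨C, hC, h⟩ := R.decay
  set S : ℝ := ∑ k, ‖ζ k‖ with hS
  have hS0 : 0 ≤ S := Finset.sum_nonneg fun _ _ => norm_nonneg _
  refine ⟨S ^ m * C, fun t x => ?_⟩
  set b : ℝ := 1 + ‖x‖ ^ 2 with hb
  have hb1 : 1 ≤ b := by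
    rw [hb]
    nlinarith [sq_nonneg ‖x‖]
  have hb0 : 0 < b := by linarith
  have h1 : jap x ^ δ = b ^ (δ / 2) := by
    unfold jap
    rw [Real.sqrt_eq_rpow, ← Real.rpow_mul hb0.le]
    congr 1
    ring
  have h2 : ‖x‖ ≤ b ^ (1 / 2 : ℝ) := by
    rw [← Real.sqrt_eq_rpow]
    apply Real.le_sqrt_of_sq_le
    linarith
  have h3 : ‖lin ζ x‖ ^ m ≤ S ^ m * b ^ ((m : ℝ) / 2) := by
    have h4 : ‖lin ζ x‖ ≤ S * b ^ (1 / 2 : ℝ) :=
      (lin_le ζ x).trans (mul_le_mul_of_nonneg_left h2 hS0)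
    have h5 := pow_le_pow_left₀ (norm_nonneg _) h4 m
    rw [mul_pow, ← Real.rpow_natCast (b ^ (1 / 2 : ℝ)) m, ← Real.rpow_mul hb0.le] at h5
    rw [show (m : ℝ) / 2 = 1 / 2 * (m : ℝ) by ring]
    exact h5
  have h4 := h (‖x‖ ^ 2) t (by positivity)
  unfold Rad.psi
  rw [norm_mul, norm_pow, h1]
  calc b ^ (δ / 2) * (‖lin ζ x‖ ^ m * ‖R.Phi (‖x‖ ^ 2) t‖)
      ≤ b ^ (δ / 2) * ((S ^ m * b ^ ((m : ℝ) / 2)) * (C * b ^ (-((R.N : ℝ) - 2) / 2))) := by
        apply mul_le_mul_of_nonneg_left _ (by positivity)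
        apply mul_le_mul h3 h4 (norm_nonneg _) (by positivity)
    _ = S ^ m * C * b ^ (δ / 2 + (m : ℝ) / 2 + -((R.N : ℝ) - 2) / 2) := by
        rw [Real.rpow_add hb0, Real.rpow_add hb0]
        ring
    _ ≤ S ^ m * C * b ^ (-(n : ℝ) / 2) := by
        apply mul_le_mul_of_nonneg_left _ (by positivity)
        apply Real.rpow_le_rpow_of_exponent_le hb1
        rw [hm]
        push_cast
        linarith

lemma Rad.isBoundState (hn : 2 ≤ n) (m : ℕ) (hm : R.N = n + 2 * m) (ζ : Fin n → ℂ)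
    (hζ : ∑ k, ζ k ^ 2 = 0) (hζ0 : ∃ k, ζ k ≠ 0) (δ : ℝ) (hδ : 0 ≤ δ) (hδm : δ + 2 ≤ m) :
    IsBoundState (R.pot n) δ (R.psi m ζ) := by
  obtain ⟨C, hC⟩ := R.majorant m hm ζ δ hδm
  obtain ⟨h1, h1', h2⟩ := stL2 n (by omega) δ hδ (R.psi m ζ) (R.cd_psi m ζ) C hC
  refine ⟨⟨R.cd_psi m ζ, h1, h1', fun t x => R.eqn m hm ζ hζ t x⟩, ?_, h2⟩
  obtain ⟨k, hk⟩ := hζ0
  refine ⟨0, EuclideanSpace.single k 1, ?_⟩
  unfold Rad.psi
  have h3 : lin ζ (EuclideanSpace.single k (1 : ℝ)) = ζ k := by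
    have := z_line ζ k 0 1
    simp only [zero_add, one_smul, Complex.ofReal_one, one_mul] at this
    rw [this]
    simp [lin]
  rw [h3]
  apply mul_ne_zero (pow_ne_zero _ hk)
  unfold Rad.Phi
  split_ifs <;> exact Complex.exp_ne_zero _

end Pool.Agent.Y860.BS
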