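import Pool.Agent.Y860.BS.Rad

/-!
The solution and the potential as functions of `q = |x|²` and `t`.
-/

open Set Filter Topology Real MeasureTheory
open scoped ContDiff

namespace Pool.Agent.Y860.BS

open Pool.Agent.H3R2

variable (R : Rad)

/-- log-modulus -/
noncomputable def Rad.A (q t : ℝ) : ℝ := R.D.h (√q - R.r0) t - R.k' * log (√q)
/-- phase -/
noncomputable def Rad.B (q t : ℝ) : ℝ := R.D.th (√q - R.r0) t - t
noncomputable def Rad.c0 : ℝ := R.D.g (-5) - R.k' * log (R.r0 - 5)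

/-- the solution without the factor `(x_1 + i x_2)^m` -/
noncomputable def Rad.Phi (q t : ℝ) : ℂ :=
  if q < 4 then Complex.exp (R.c0 : ℂ) else Complex.exp ((R.A q t : ℂ) + (R.B q t : ℂ) * Complex.I)

/-- the potential -/
noncomputable def Rad.v (q t : ℝ) : ℝ :=
  if q < 4 then 0 else R.D.V (√q - R.r0, t) + 1 - R.c / q

lemma sqrt_gt {q : ℝ} (hq : 1 < q) : 1 < √q := by
  rw [Real.lt_sqrt (by norm_num)]
  linarith

lemma Rad.sqrt_lt {q : ℝ} (hq : q < 4) : √q - R.r0 < -5 := by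
  have hN := R.N_ge
  have hr0 : R.r0 = (R.N : ℝ) + 20 := rfl
  have h : √q < 4 := by
    rw [Real.sqrt_lt' (by norm_num)]
    linarith
  linarith

lemma Rad.A_in {q : ℝ} (hq : 1 < q) (hq4 : q < 4) (t : ℝ) : R.A q t = R.c0 := by
  have h1 := R.sqrt_lt hq4
  have h2 := sqrt_gt hq
  unfold Rad.A Rad.c0
  rw [R.h_out _ t (by rw [abs_of_neg (by linarith)]; linarith)]
  have h3 := R.g_left (√q - R.r0) h1.le (by linarith)
  rw [show R.r0 + (√q - R.r0) = √q by ring] at h3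
  exact h3

lemma Rad.B_in {q : ℝ} (hq4 : q < 4) (t : ℝ) : R.B q t = 0 := by
  have h1 := R.sqrt_lt hq4
  unfold Rad.B
  rw [R.th_out _ t (by rw [abs_of_neg (by linarith)]; linarith)]
  ring

lemma Rad.Phi_eq {q : ℝ} (hq : 1 < q) (t : ℝ) :
    R.Phi q t = Complex.exp ((R.A q t : ℂ) + (R.B q t : ℂ) * Complex.I) := by
  unfold Rad.Phi
  split_ifs with h
  · rw [R.A_in hq h, R.B_in h]
    simp
  · rfl

lemma Rad.v_eq {q : ℝ} (hq : 1 < q) (t : ℝ) :
    R.v q t = R.D.V (√q - R.r0, t) + 1 - R.c / q := by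
  unfold Rad.v
  split_ifs with h
  · have h1 := R.sqrt_lt h
    have h2 := sqrt_gt hq
    rw [R.V_left _ t h1 (by linarith), show R.r0 + (√q - R.r0) = √q by ring,
      Real.sq_sqrt (by linarith)]
    ring
  · rfl

lemma Rad.Phi_lt {q : ℝ} (hq : q < 4) (t : ℝ) : R.Phi q t = Complex.exp (R.c0 : ℂ) := by
  unfold Rad.Phi
  rw [if_pos hq]

lemma Rad.v_lt {q : ℝ} (hq : q < 4) (t : ℝ) : R.v q t = 0 := by
  unfold Rad.v
  rw [if_pos hq]

lemma Rad.v_nonneg (q t : ℝ) : 0 ≤ R.v q t := by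
  unfold Rad.v
  split_ifs with h
  · exact le_rfl
  · push Not at h
    have h1 := sqrt_gt (show 1 < q by linarith)
    have h2 := R.D.hXy (√q - R.r0) t
    have h3 := R.lower (R.D.y (√q - R.r0, t)) t (by rw [h2]; linarith)
    rw [h2, show R.r0 + (√q - R.r0) = √q by ring, Real.sq_sqrt (by linarith)] at h3
    unfold Dat.V
    simp only
    linarith

lemma Rad.v_out (q t : ℝ) (hq : (R.r0 + 5) ^ 2 < q) : R.v q t = 0 := by
  have hN := R.N_ge
  have hr0 : R.r0 = (R.N : ℝ) + 20 := rfl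
  have h1 : R.r0 + 5 < √q := by
    rw [Real.lt_sqrt (by linarith)]
    exact hq
  have h2 : 1 < q := by nlinarith
  rw [R.v_eq h2, R.V_right _ t (by linarith), show R.r0 + (√q - R.r0) = √q by ring,
    Real.sq_sqrt (by linarith)]
  ring

lemma Rad.v_per (q t : ℝ) : R.v q (t + R.D.per) = R.v q t := by
  unfold Rad.v
  rw [R.D.V_per]

/-! ### smoothness -/

lemma Rad.cd_x {p : ℝ × ℝ} (hp : 1 < p.1) :
    ContDiffAt ℝ ∞ (fun p : ℝ × ℝ => (√p.1 - R.r0, p.2)) p := by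
  have h1 : ContDiffAt ℝ ∞ (fun p : ℝ × ℝ => √p.1) p :=
    contDiffAt_fst.sqrt (by linarith)
  exact (h1.sub contDiffAt_const).prodMk contDiffAt_snd

lemma Rad.cdv : ContDiff ℝ ∞ (fun p : ℝ × ℝ => R.v p.1 p.2) := by
  rw [contDiff_iff_contDiffAt]
  intro p
  rcases lt_or_ge p.1 3 with h | h
  · have he : (fun p : ℝ × ℝ => R.v p.1 p.2) =ᶠ[𝓝 p] fun _ => 0 := by
      have : ∀ᶠ q : ℝ × ℝ in 𝓝 p, q.1 < 4 :=
        (continuous_fst.tendsto p).eventually (gt_mem_nhds (by linarith))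
      filter_upwards [this] with q hq
      exact R.v_lt hq _
    exact contDiffAt_const.congr_of_eventuallyEq he
  · have he : (fun p : ℝ × ℝ => R.v p.1 p.2) =ᶠ[𝓝 p]
        fun p => R.D.V (√p.1 - R.r0, p.2) + 1 - R.c / p.1 := by
      have : ∀ᶠ q : ℝ × ℝ in 𝓝 p, 1 < q.1 :=
        (continuous_fst.tendsto p).eventually (lt_mem_nhds (by linarith))
      filter_upwards [this] with q hq
      exact R.v_eq hq _
    have h1 : ContDiffAt ℝ ∞ (fun p : ℝ × ℝ => R.D.V (√p.1 - R.r0, p.2)) p :=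
      ContDiffAt.comp p (R.D.cdV.contDiffAt) (R.cd_x (by linarith))
    have h2 : ContDiffAt ℝ ∞ (fun p : ℝ × ℝ => R.c / p.1) p :=
      contDiffAt_const.div contDiffAt_fst (by linarith)
    exact ((h1.add contDiffAt_const).sub h2).congr_of_eventuallyEq he

lemma Rad.cdPhi : ContDiff ℝ ∞ (fun p : ℝ × ℝ => R.Phi p.1 p.2) := by
  rw [contDiff_iff_contDiffAt]
  intro p
  rcases lt_or_ge p.1 3 with h | h
  · have he : (fun p : ℝ × ℝ => R.Phi p.1 p.2) =ᶠ[𝓝 p] fun _ => Complex.exp (R.c0 : ℂ) := by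
      have : ∀ᶠ q : ℝ × ℝ in 𝓝 p, q.1 < 4 :=
        (continuous_fst.tendsto p).eventually (gt_mem_nhds (by linarith))
      filter_upwards [this] with q hq
      exact R.Phi_lt hq _
    exact contDiffAt_const.congr_of_eventuallyEq he
  · have he : (fun p : ℝ × ℝ => R.Phi p.1 p.2) =ᶠ[𝓝 p]
        fun p => Complex.exp ((R.A p.1 p.2 : ℂ) + (R.B p.1 p.2 : ℂ) * Complex.I) := by
      have : ∀ᶠ q : ℝ × ℝ in 𝓝 p, 1 < q.1 :=
        (continuous_fst.tendsto p).eventually (lt_mem_nhds (by linarith))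
      filter_upwards [this] with q hq
      exact R.Phi_eq hq _
    have hs : ContDiffAt ℝ ∞ (fun p : ℝ × ℝ => √p.1) p := contDiffAt_fst.sqrt (by linarith)
    have hs0 : √p.1 ≠ 0 := by
      have := sqrt_gt (show 1 < p.1 by linarith)
      linarith
    have h1 : ContDiffAt ℝ ∞ (fun p : ℝ × ℝ => R.A p.1 p.2) p := by
      unfold Rad.A
      have h2 : ContDiffAt ℝ ∞ (fun p : ℝ × ℝ => R.D.h (√p.1 - R.r0) p.2) p :=
        ContDiffAt.comp p (R.D.cdh.contDiffAt) (R.cd_x (by linarith))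
      exact h2.sub (contDiffAt_const.mul (hs.log hs0))
    have h2 : ContDiffAt ℝ ∞ (fun p : ℝ × ℝ => R.B p.1 p.2) p := by
      unfold Rad.B
      have h2 : ContDiffAt ℝ ∞ (fun p : ℝ × ℝ => R.D.th (√p.1 - R.r0) p.2) p :=
        ContDiffAt.comp p (R.D.cdth.contDiffAt) (R.cd_x (by linarith))
      exact h2.sub contDiffAt_snd
    have h3 : ContDiffAt ℝ ∞ (fun p : ℝ × ℝ => ((R.A p.1 p.2 : ℝ) : ℂ)) p :=
      ContDiffAt.comp p Complex.ofRealCLM.contDiff.contDiffAt h1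
    have h4 : ContDiffAt ℝ ∞ (fun p : ℝ × ℝ => ((R.B p.1 p.2 : ℝ) : ℂ)) p :=
      ContDiffAt.comp p Complex.ofRealCLM.contDiff.contDiffAt h2
    exact ((h3.add (h4.mul contDiffAt_const)).cexp).congr_of_eventuallyEq he

/-! ### derivatives -/

/-- first and second derivative of the complex logarithm in the one-dimensional variable -/
noncomputable def Rad.L1 (x t : ℝ) : ℂ := (H1 R.D.P R.D.P.nu R.D.w (R.D.y (x, t)) t : ℂ)
      + ((Xt R.D.P R.D.P.nu (R.D.y (x, t)) t / 2 : ℝ) : ℂ) * Complex.I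
noncomputable def Rad.L2 (x t : ℝ) : ℂ := (H2 R.D.P R.D.P.nu R.D.w (R.D.y (x, t)) t : ℂ)
      + ((X1t R.D.P R.D.P.nu (R.D.y (x, t)) t / X1 R.D.P R.D.P.nu (R.D.y (x, t)) t / 2 : ℝ) : ℂ)
        * Complex.I

lemma Rad.L_x (x t : ℝ) : HasDerivAt (fun x => ((R.D.h x t : ℝ) : ℂ) + ((R.D.th x t : ℝ) : ℂ)
    * Complex.I) (R.L1 x t) x := by
  have h1 := (R.D.h_x x t).ofReal_comp
  have h2 := (R.D.th_x x t).ofReal_comp
  exact h1.add (h2.mul_const Complex.I)

lemma Rad.L1_x (x t : ℝ) : HasDerivAt (fun x => R.L1 x t) (R.L2 x t) x := by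
  have h1 := (R.D.H1_x x t).ofReal_comp
  have h2 := (R.D.th_xx x t).ofReal_comp
  exact h1.add (h2.mul_const Complex.I)

lemma hsqrt {q : ℝ} (hq : 1 < q) (r0 : ℝ) :
    HasDerivAt (fun q => √q - r0) (1 / (2 * √q)) q :=
  (Real.hasDerivAt_sqrt (by linarith)).sub_const r0

/-- the logarithm of `Φ` -/
noncomputable def Rad.F (q t : ℝ) : ℂ := ((R.A q t : ℝ) : ℂ) + ((R.B q t : ℝ) : ℂ) * Complex.I
noncomputable def Rad.F1 (q t : ℝ) : ℂ :=
  R.L1 (√q - R.r0) t / (2 * (√q : ℂ)) - (R.k' : ℂ) / (2 * (q : ℂ))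
noncomputable def Rad.F2 (q t : ℝ) : ℂ :=
  R.L2 (√q - R.r0) t / (4 * (q : ℂ)) - R.L1 (√q - R.r0) t / (4 * (q : ℂ) * (√q : ℂ))
    + (R.k' : ℂ) / (2 * (q : ℂ) ^ 2)

lemma Rad.F_q {q : ℝ} (hq : 1 < q) (t : ℝ) : HasDerivAt (fun q => R.F q t) (R.F1 q t) q := by
  have hs := hsqrt hq R.r0
  have hr := sqrt_gt hq
  have h1 := (R.L_x (√q - R.r0) t).scomp q hs
  have h2 : HasDerivAt (fun q : ℝ => R.k' * log (√q)) (R.k' * (1 / (2 * √q) / √q)) q :=
    ((Real.hasDerivAt_sqrt (by linarith)).log (by linarith)).const_mul _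
  have h3 := h1.sub h2.ofReal_comp
  have h4 : HasDerivAt (fun q : ℝ => (t : ℂ) * Complex.I) 0 q := hasDerivAt_const _ _
  have h5 := h3.sub h4
  have e : (fun q => R.F q t) = (((fun x => ((R.D.h x t : ℝ) : ℂ) + ((R.D.th x t : ℝ) : ℂ)
      * Complex.I) ∘ (fun q => √q - R.r0)) - fun q : ℝ => ((R.k' * log (√q) : ℝ) : ℂ))
      - fun q : ℝ => (t : ℂ) * Complex.I := by
    funext q
    simp only [Rad.F, Rad.A, Rad.B, Function.comp, Pi.sub_apply]
    push_cast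
    ring
  rw [e]
  refine h5.congr_deriv ?_
  have hq2 : (q : ℂ) = (√q : ℂ) ^ 2 := by
    rw [← Complex.ofReal_pow, Real.sq_sqrt (by linarith)]
  have hne : (√q : ℂ) ≠ 0 := by
    rw [Complex.ofReal_ne_zero]
    linarith
  unfold Rad.F1
  rw [hq2]
  simp only [Complex.real_smul]
  push_cast
  field_simp
  ring

lemma Rad.F1_q {q : ℝ} (hq : 1 < q) (t : ℝ) : HasDerivAt (fun q => R.F1 q t) (R.F2 q t) q := by
  have hs := hsqrt hq R.r0
  have hr := sqrt_gt hq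
  have hne : (√q : ℂ) ≠ 0 := by
    rw [Complex.ofReal_ne_zero]
    linarith
  have hq0 : (q : ℂ) ≠ 0 := by
    rw [Complex.ofReal_ne_zero]
    linarith
  have h1 := (R.L1_x (√q - R.r0) t).scomp q hs
  have h2 : HasDerivAt (fun q : ℝ => (2 * (√q : ℂ))) (2 * ((1 / (2 * √q) : ℝ) : ℂ)) q :=
    ((Real.hasDerivAt_sqrt (by linarith)).ofReal_comp).const_mul 2
  have h3 := h1.div h2 (mul_ne_zero two_ne_zero hne)
  have h4 : HasDerivAt (fun q : ℝ => (2 * (q : ℂ))) (2 * ((1 : ℝ) : ℂ)) q :=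
    ((hasDerivAt_id q).ofReal_comp).const_mul 2
  have h5 := (hasDerivAt_const q (R.k' : ℂ)).div h4 (mul_ne_zero two_ne_zero hq0)
  have h6 := h3.sub h5
  have e : (fun q => R.F1 q t) = (((fun x => R.L1 x t) ∘ (fun q => √q - R.r0)) /
      fun q : ℝ => (2 * (√q : ℂ))) - ((fun _ : ℝ => (R.k' : ℂ)) / fun q : ℝ => (2 * (q : ℂ))) := by
    funext q
    simp only [Rad.F1, Function.comp, Pi.sub_apply, Pi.div_apply]
  rw [e]
  refine h6.congr_deriv ?_
  have hq2 : (q : ℂ) = (√q : ℂ) ^ 2 := by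
    rw [← Complex.ofReal_pow, Real.sq_sqrt (by linarith)]
  unfold Rad.F2
  rw [hq2]
  simp only [Complex.real_smul, Function.comp]
  push_cast
  field_simp
  ring

lemma Rad.F_t {q : ℝ} (t : ℝ) : HasDerivAt (fun t => R.F q t)
    (((-(X1t R.D.P R.D.P.nu (R.D.y (√q - R.r0, t)) t / X1 R.D.P R.D.P.nu (R.D.y (√q - R.r0, t)) t / 2)
      - H1 R.D.P R.D.P.nu R.D.w (R.D.y (√q - R.r0, t)) t
        * Xt R.D.P R.D.P.nu (R.D.y (√q - R.r0, t)) t : ℝ) : ℂ) +
      ((Tt R.D.P R.D.P.nu (R.D.y (√q - R.r0, t)) t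
        - Xt R.D.P R.D.P.nu (R.D.y (√q - R.r0, t)) t ^ 2 / 2 - 1 : ℝ) : ℂ) * Complex.I) t := by
  have h1 := ((R.D.h_t (√q - R.r0) t).sub_const (R.k' * log (√q))).ofReal_comp
  have h2 := ((R.D.th_t (√q - R.r0) t).sub (hasDerivAt_id t)).ofReal_comp
  exact h1.add (h2.mul_const Complex.I)

/-! ### the equation in the variable `q` -/

theorem Rad.pde (q t : ℝ) : Complex.I * deriv (fun t => R.Phi q t) t =
    -(4 * (q : ℂ) * deriv (deriv (fun q => R.Phi q t)) q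
      + 2 * (R.N : ℂ) * deriv (fun q => R.Phi q t) q) + (R.v q t : ℂ) * R.Phi q t := by
  rcases lt_or_ge q 3 with h | h
  · have he : (fun q => R.Phi q t) =ᶠ[𝓝 q] fun _ => Complex.exp (R.c0 : ℂ) := by
      filter_upwards [gt_mem_nhds (show q < 4 by linarith)] with q' hq'
      exact R.Phi_lt hq' _
    have h1 : deriv (fun q => R.Phi q t) =ᶠ[𝓝 q] fun _ => 0 := by
      have := he.deriv
      filter_upwards [this] with q' hq'
      rw [hq']
      simp
    have h2 : (fun t => R.Phi q t) = fun _ => Complex.exp (R.c0 : ℂ) := by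
      funext t
      exact R.Phi_lt (by linarith) _
    rw [h2, h1.deriv_eq, h1.eq_of_nhds, R.v_lt (by linarith)]
    simp
  · have hq : 1 < q := by linarith
    have hF : ∀ q' : ℝ, 1 < q' → ∀ t, R.Phi q' t = Complex.exp (R.F q' t) := fun q' hq' t =>
      R.Phi_eq hq' t
    have hd : ∀ q' : ℝ, 1 < q' →
        HasDerivAt (fun q => Complex.exp (R.F q t)) (Complex.exp (R.F q' t) * R.F1 q' t) q' :=
      fun q' hq' => (R.F_q hq' t).cexp
    have he : (fun q => R.Phi q t) =ᶠ[𝓝 q] fun q => Complex.exp (R.F q t) := by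
      filter_upwards [lt_mem_nhds hq] with q' hq'
      exact hF q' hq' t
    have h1 : deriv (fun q => R.Phi q t) =ᶠ[𝓝 q] fun q => Complex.exp (R.F q t) * R.F1 q t := by
      filter_upwards [he.deriv, lt_mem_nhds hq] with q' hq' h2
      rw [hq', (hd q' h2).deriv]
    have h2 : HasDerivAt (fun q => Complex.exp (R.F q t) * R.F1 q t)
        (Complex.exp (R.F q t) * R.F1 q t * R.F1 q t + Complex.exp (R.F q t) * R.F2 q t) q :=
      (hd q hq).mul (R.F1_q hq t)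
    have h3 : (fun t => R.Phi q t) = fun t => Complex.exp (R.F q t) := by
      funext t
      exact hF q hq t
    have h4 := (R.F_t (q := q) t).cexp
    rw [h3, h4.deriv, h1.deriv_eq, h2.deriv, h1.eq_of_nhds, hF q hq t, R.v_eq hq]
    have hq2 : (q : ℂ) = (√q : ℂ) ^ 2 := by
      rw [← Complex.ofReal_pow, Real.sq_sqrt (by linarith)]
    have hne : (√q : ℂ) ≠ 0 := by
      rw [Complex.ofReal_ne_zero]
      have := sqrt_gt hq
      linarith
    have hk : (R.N : ℂ) = 2 * (R.k' : ℂ) + 1 := by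
      unfold Rad.k'
      push_cast
      ring
    have hc : (R.c : ℂ) = (R.k' : ℂ) * ((R.k' : ℂ) - 1) := by
      rw [R.c_eq']
      push_cast
      ring
    have hI : Complex.I ^ 2 = -1 := Complex.I_sq
    have key : 4 * (q : ℂ) * (R.F1 q t * R.F1 q t + R.F2 q t) + 2 * (R.N : ℂ) * R.F1 q t
        = R.L2 (√q - R.r0) t + R.L1 (√q - R.r0) t ^ 2 - (R.c : ℂ) / (q : ℂ) := by
      unfold Rad.F1 Rad.F2
      rw [hk, hc, hq2]
      field_simp
      ring
    have key2 : 4 * (q : ℂ) * (Complex.exp (R.F q t) * R.F1 q t * R.F1 q t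
        + Complex.exp (R.F q t) * R.F2 q t) + 2 * (R.N : ℂ) * (Complex.exp (R.F q t) * R.F1 q t)
        = Complex.exp (R.F q t) * (R.L2 (√q - R.r0) t + R.L1 (√q - R.r0) t ^ 2
          - (R.c : ℂ) / (q : ℂ)) := by
      rw [← key]
      ring
    rw [key2]
    unfold Rad.L1 Rad.L2 Dat.V Vh
    push_cast
    linear_combination (((Tt R.D.P R.D.P.nu (R.D.y (√q - R.r0, t)) t : ℂ)
      - (Xt R.D.P R.D.P.nu (R.D.y (√q - R.r0, t)) t : ℂ) ^ 2 / 2 - 1
      + (Xt R.D.P R.D.P.nu (R.D.y (√q - R.r0, t)) t : ℂ) ^ 2 / 4) * Complex.exp (R.F q t)) * hI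

end Pool.Agent.Y860.BS
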