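import Pool.Agent.Y860.BS.Sol

/-!
Positivity of the radial potential in Lagrangian coordinates.
-/

open Set Filter Topology Real MeasureTheory
open scoped ContDiff

namespace Pool.Agent.Y860.BS

open Pool.Agent.H3R2

/-- Data of the radial construction; `N` is the effective dimension. -/
structure Rad where
  N : ℕ
  hN : 5 ≤ N
  D : Dat
  hw : D.w = prof ((N : ℝ) + 20) (((N : ℝ) - 3) / 2) (((N : ℝ) - 1) / 2) D.P.E

lemma exists_rad (N : ℕ) (hN : 5 ≤ N) : ∃ R : Rad, R.N = N := by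
  obtain ⟨P⟩ := exists_prof
  obtain ⟨D, h1, h2⟩ := exists_dat P (prof ((N : ℝ) + 20) (((N : ℝ) - 3) / 2)
    (((N : ℝ) - 1) / 2) P.E) (cd_prof _ _ _ _)
  exact ⟨⟨N, hN, D, by rw [h2, h1]⟩, rfl⟩

variable (R : Rad)

noncomputable def Rad.k : ℝ := ((R.N : ℝ) - 3) / 2
noncomputable def Rad.k' : ℝ := ((R.N : ℝ) - 1) / 2
noncomputable def Rad.r0 : ℝ := (R.N : ℝ) + 20
noncomputable def Rad.c : ℝ := ((R.N : ℝ) - 1) * ((R.N : ℝ) - 3) / 4

lemma Rad.N_ge : (5 : ℝ) ≤ R.N := by exact_mod_cast R.hN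
lemma Rad.k_nonneg : 0 ≤ R.k := by
  have := R.N_ge
  unfold Rad.k
  linarith
lemma Rad.c_eq : R.c = R.k * (R.k + 1) := by
  unfold Rad.c Rad.k
  ring
lemma Rad.c_eq' : R.c = R.k' * (R.k' - 1) := by
  unfold Rad.c Rad.k'
  ring
lemma Rad.c_nonneg : 0 ≤ R.c := by
  rw [R.c_eq]
  have := R.k_nonneg
  positivity
lemma Rad.w_eq : R.D.w = prof R.r0 R.k R.k' R.D.P.E := R.hw

lemma Vh_static (P : Prof) (ν : ℝ) (w : ℝ → ℝ) (s t : ℝ) (h3 : 3 ≤ |s|) :
    Vh P ν w s t = deriv w s + w s ^ 2 - 1 := by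
  have e1 : X1 P ν s t = 1 := by
    unfold X1
    rw [P.f_out s (by linarith) 2, P.c_out s (by linarith) 2]
    ring
  have e2 : X2 P ν s t = 0 := by
    unfold X2
    rw [P.f_out s (by linarith) 3, P.c_out s (by linarith) 3]
    ring
  have e3 : X3 P ν s t = 0 := by
    unfold X3
    rw [P.f_out s (by linarith) 4, P.c_out s (by linarith) 4]
    ring
  have e4 := quantum P ν w s t
  rw [e1, e2, e3] at e4
  have e5 := kinetic P ν s t
  rw [P.f_out s (by linarith) 1, P.f_out s (by linarith) 0, P.c_out s (by linarith) 1,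
    P.c_out s (by linarith) 0] at e5
  have e7 : Vh P ν w s t =
      (H2 P ν w s t + H1 P ν w s t ^ 2) + (Xt P ν s t ^ 2 / 4 - Tt P ν s t) := by
    unfold Vh
    ring
  rw [e7, e4, e5]
  ring

lemma Vh_congr (P : Prof) (ν : ℝ) (w w' : ℝ → ℝ) (s t : ℝ) (h : w =ᶠ[𝓝 s] w') :
    Vh P ν w s t = Vh P ν w' s t := by
  unfold Vh H2 H1
  rw [h.eq_of_nhds, h.deriv_eq]

lemma Rad.lower (s t : ℝ) (hr : 1 < R.r0 + X R.D.P R.D.P.nu s t) :
    R.c / (R.r0 + X R.D.P R.D.P.nu s t) ^ 2 ≤ Vh R.D.P R.D.P.nu R.D.w s t + 1 := by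
  have hN := R.N_ge
  have hr0 : R.r0 = (R.N : ℝ) + 20 := rfl
  by_cases h3 : |s| < 3
  · obtain ⟨w', hw', h1, h2, -, -⟩ := exists_w R.D.P.E R.D.P.E_ge
    have h4 : R.D.w =ᶠ[𝓝 s] w' := by
      rw [R.w_eq]
      exact (prof_mid _ _ _ _ s h3).trans (h1 s h3).symm
    rw [Vh_congr _ _ _ _ s t h4]
    have h5 := Vh_nonneg R.D.P w' h1 h2 s t
    have h6 := abs_le.mp (X_sub R.D.P R.D.P.nu s t)
    have h7 := abs_lt.mp h3
    have h8 : (R.N : ℝ) ≤ R.r0 + X R.D.P R.D.P.nu s t := by linarith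
    have h9 : R.c / (R.r0 + X R.D.P R.D.P.nu s t) ^ 2 ≤ 1 := by
      rw [div_le_one (by positivity)]
      unfold Rad.c
      nlinarith
    linarith
  · push Not at h3
    have hX : X R.D.P R.D.P.nu s t = s := X_out _ _ s t (by linarith)
    rw [hX] at hr ⊢
    rw [Vh_static _ _ _ s t h3, R.w_eq]
    rcases le_abs.mp h3 with h | h
    · have := prof_ineq_right R.r0 R.k R.k' R.D.P.E s (by linarith) R.k_nonneg
        (by unfold Rad.k; linarith) R.D.P.E_ge h
      rw [← R.c_eq] at this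
      linarith
    · have := prof_ineq_left R.r0 R.k R.k' R.D.P.E s (by linarith)
        (by unfold Rad.k'; linarith) (by unfold Rad.k'; linarith) R.D.P.E_ge (by linarith) hr
      rw [← R.c_eq'] at this
      linarith

/-- static exterior, right -/
lemma Rad.V_right (x t : ℝ) (hx : 5 < x) :
    R.D.V (x, t) + 1 = R.c / (R.r0 + x) ^ 2 := by
  have hN := R.N_ge
  have hr0 : R.r0 = (R.N : ℝ) + 20 := rfl
  have hy : R.D.y (x, t) = x := R.D.y_out x t (by rw [abs_of_pos (by linarith)]; linarith)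
  unfold Dat.V
  simp only
  rw [hy, Vh_static _ _ _ x t (by rw [abs_of_pos (by linarith)]; linarith)]
  have he : R.D.w =ᶠ[𝓝 x] fun x => -(R.k / (R.r0 + x)) := by
    rw [R.w_eq]
    filter_upwards [lt_mem_nhds hx] with x' hx'
    exact prof_far_right _ _ _ _ x' (by linarith) hx'.le
  have hpos : 0 < R.r0 + x := by linarith
  have hd1 : HasDerivAt (fun s : ℝ => -(R.k / (R.r0 + s))) (R.k / (R.r0 + x) ^ 2) x := by
    have h := ((hasDerivAt_id x).const_add R.r0)
    have h2 := ((hasDerivAt_const x R.k).div h hpos.ne').neg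
    refine h2.congr_deriv ?_
    simp only [id]
    ring
  rw [he.deriv_eq, hd1.deriv, he.eq_of_nhds, R.c_eq]
  field_simp
  ring

/-- static exterior, left -/
lemma Rad.V_left (x t : ℝ) (hx : x < -5) (hr : 1 < R.r0 + x) :
    R.D.V (x, t) + 1 = R.c / (R.r0 + x) ^ 2 := by
  have hN := R.N_ge
  have hr0 : R.r0 = (R.N : ℝ) + 20 := rfl
  have hy : R.D.y (x, t) = x := R.D.y_out x t (by rw [abs_of_neg (by linarith)]; linarith)
  unfold Dat.V
  simp only
  rw [hy, Vh_static _ _ _ x t (by rw [abs_of_neg (by linarith)]; linarith)]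
  have he : R.D.w =ᶠ[𝓝 x] fun x => R.k' / (R.r0 + x) := by
    rw [R.w_eq]
    filter_upwards [gt_mem_nhds hx, lt_mem_nhds (show 1 - R.r0 < x by linarith)] with x' hx' h2
    exact prof_far_left _ _ _ _ x' (by linarith) hx'.le
  have hpos : 0 < R.r0 + x := by linarith
  have hd1 : HasDerivAt (fun s : ℝ => R.k' / (R.r0 + s)) (-(R.k' / (R.r0 + x) ^ 2)) x := by
    have h := ((hasDerivAt_id x).const_add R.r0)
    have h2 := (hasDerivAt_const x R.k').div h hpos.ne'
    refine h2.congr_deriv ?_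
    simp only [id]
    ring
  rw [he.deriv_eq, hd1.deriv, he.eq_of_nhds, R.c_eq']
  field_simp
  ring

/-! ### the log-modulus outside -/

lemma Rad.th_out (x t : ℝ) (hx : 5 / 2 < |x|) : R.D.th x t = t := by
  unfold Dat.th T
  rw [R.D.y_out x t hx, R.D.P.f_out x (by linarith) 1, R.D.P.f_out x (by linarith) 0,
    R.D.P.c_out x (by linarith) 1, R.D.P.c_out x (by linarith) 0]
  ring

lemma Rad.h_out (x t : ℝ) (hx : 5 / 2 < |x|) : R.D.h x t = R.D.g x := by
  unfold Dat.h
  have e1 : X1 R.D.P R.D.P.nu x t = 1 := by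
    unfold X1
    rw [R.D.P.f_out x (by linarith) 2, R.D.P.c_out x (by linarith) 2]
    ring
  rw [R.D.y_out x t hx, e1, log_one]
  ring

lemma Rad.g_left (x : ℝ) (hx : x ≤ -5) (hr : 1 < R.r0 + x) :
    R.D.g x - R.k' * log (R.r0 + x) = R.D.g (-5) - R.k' * log (R.r0 - 5) := by
  have hN := R.N_ge
  have hr0 : R.r0 = (R.N : ℝ) + 20 := rfl
  have h := constant_of_has_deriv_right_zero (f := fun z => R.D.g z - R.k' * log (R.r0 + z))
    (a := x) (b := -5)
    (by
      apply ContinuousOn.sub R.D.hg.continuous.continuousOn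
      apply ContinuousOn.mul continuousOn_const
      apply ContinuousOn.log (by fun_prop)
      intro z hz
      have := hz.1
      linarith)
    (fun z hz => by
      have hpos : 0 < R.r0 + z := by linarith [hz.1]
      have h1 := (R.D.hgd z)
      have h2 : HasDerivAt (fun z => R.k' * log (R.r0 + z)) (R.k' * (1 / (R.r0 + z))) z := by
        have h3 := ((hasDerivAt_id z).const_add R.r0).log hpos.ne'
        exact h3.const_mul R.k'
      have h4 := h1.sub h2
      rw [R.w_eq, prof_far_left _ _ _ _ z (by linarith [hz.1]) hz.2.le] at h4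
      have h5 : HasDerivAt (fun z => R.D.g z - R.k' * log (R.r0 + z)) 0 z := by
        refine h4.congr_deriv ?_
        ring
      exact h5.hasDerivWithinAt) (-5) ⟨hx, le_rfl⟩
  rw [show R.r0 + -5 = R.r0 - 5 by ring] at h
  linarith

lemma Rad.g_right (x : ℝ) (hx : 5 ≤ x) :
    R.D.g x = R.D.g 5 + R.k * log (R.r0 + 5) - R.k * log (R.r0 + x) := by
  have hN := R.N_ge
  have hr0 : R.r0 = (R.N : ℝ) + 20 := rfl
  have h := constant_of_has_deriv_right_zero (f := fun z => R.D.g z + R.k * log (R.r0 + z))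
    (a := 5) (b := x)
    (by
      apply ContinuousOn.add R.D.hg.continuous.continuousOn
      apply ContinuousOn.mul continuousOn_const
      apply ContinuousOn.log (by fun_prop)
      intro z hz
      have := hz.1
      linarith)
    (fun z hz => by
      have hpos : 0 < R.r0 + z := by linarith [hz.1]
      have h1 := (R.D.hgd z)
      have h2 : HasDerivAt (fun z => R.k * log (R.r0 + z)) (R.k * (1 / (R.r0 + z))) z := by
        have h3 := ((hasDerivAt_id z).const_add R.r0).log hpos.ne'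
        exact h3.const_mul R.k
      have h4 := h1.add h2
      rw [R.w_eq, prof_far_right _ _ _ _ z (by linarith) hz.1] at h4
      have h5 : HasDerivAt (fun z => R.D.g z + R.k * log (R.r0 + z)) 0 z := by
        refine h4.congr_deriv ?_
        ring
      exact h5.hasDerivWithinAt) x ⟨hx, le_rfl⟩
  linarith

end Pool.Agent.Y860.BS
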