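import Mathlib

/-!
The log-derivative profile on the half line `s > -r₀` (radius `r = r₀ + s`), for the centrifugal
potential `c / r²`, `c = (N-1)(N-3)/4`.
-/

open Set Filter Topology
open scoped ContDiff

namespace Pool.Agent.Y860.BS

/-- a smooth function on the line which is `1/u` for `u ≥ 1` -/
noncomputable def rec (u : ℝ) : ℝ := u / (u ^ 2 + (1 - Real.smoothTransition u))

lemma rec_den_pos (u : ℝ) : 0 < u ^ 2 + (1 - Real.smoothTransition u) := by
  rcases eq_or_ne u 0 with h | h
  · subst h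
    rw [Real.smoothTransition.zero_of_nonpos le_rfl]
    norm_num
  · have h1 := Real.smoothTransition.le_one u
    positivity

lemma cd_rec : ContDiff ℝ ∞ rec := by
  unfold rec
  exact contDiff_id.div ((contDiff_id.pow 2).add (contDiff_const.sub
    Real.smoothTransition.contDiff)) (fun u => (rec_den_pos u).ne')

lemma rec_eq (u : ℝ) (hu : 1 ≤ u) : rec u = 1 / u := by
  unfold rec
  rw [Real.smoothTransition.one_of_one_le hu]
  have : u ≠ 0 := by linarith
  field_simp
  ring

/-- the profile -/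
noncomputable def prof (r0 k k' E : ℝ) (s : ℝ) : ℝ :=
  -E * s + (1 - Real.smoothTransition (4 + s)) * ((k' * rec (r0 + s)
    + Real.smoothTransition (5 + s)) + E * s)
  - (1 - Real.smoothTransition (4 - s)) * ((k * rec (r0 + s)
    + Real.smoothTransition (5 - s)) - E * s)

lemma cd_prof (r0 k k' E : ℝ) : ContDiff ℝ ∞ (prof r0 k k' E) := by
  unfold prof
  have hf : ContDiff ℝ ∞ Real.smoothTransition := Real.smoothTransition.contDiff
  have h1 : ∀ a : ℝ, ContDiff ℝ ∞ (fun s : ℝ => Real.smoothTransition (a + s)) := fun a =>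
    hf.comp (contDiff_const.add contDiff_id)
  have h2 : ∀ a : ℝ, ContDiff ℝ ∞ (fun s : ℝ => Real.smoothTransition (a - s)) := fun a =>
    hf.comp (contDiff_const.sub contDiff_id)
  have h3 : ContDiff ℝ ∞ (fun s : ℝ => rec (r0 + s)) :=
    cd_rec.comp (contDiff_const.add contDiff_id)
  exact ((contDiff_const.mul contDiff_id).add ((contDiff_const.sub (h1 4)).mul
    (((contDiff_const.mul h3).add (h1 5)).add (contDiff_const.mul contDiff_id)))).sub
    ((contDiff_const.sub (h2 4)).mul (((contDiff_const.mul h3).add (h2 5)).sub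
      (contDiff_const.mul contDiff_id)))

lemma prof_mid (r0 k k' E s : ℝ) (hs : |s| < 3) : prof r0 k k' E =ᶠ[𝓝 s] fun s => -E * s := by
  have : ∀ᶠ s' in 𝓝 s, |s'| < 3 := (continuous_abs.tendsto s).eventually (gt_mem_nhds hs)
  filter_upwards [this] with s' hs'
  rw [abs_lt] at hs'
  unfold prof
  rw [Real.smoothTransition.one_of_one_le (by linarith : (1 : ℝ) ≤ 4 + s'),
    Real.smoothTransition.one_of_one_le (by linarith : (1 : ℝ) ≤ 4 - s')]
  ring

lemma prof_right (r0 k k' E s : ℝ) (hs : 0 < s) (hr : 1 ≤ r0) :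
    prof r0 k k' E =ᶠ[𝓝 s] fun s => -((k / (r0 + s) + Real.smoothTransition (5 - s))
      + Real.smoothTransition (4 - s) * (E * s - (k / (r0 + s) + Real.smoothTransition (5 - s)))) := by
  filter_upwards [lt_mem_nhds hs] with s' hs'
  unfold prof
  rw [Real.smoothTransition.one_of_one_le (by linarith : (1 : ℝ) ≤ 4 + s'), rec_eq _ (by linarith)]
  ring

lemma prof_left (r0 k k' E s : ℝ) (hs : s < 0) (hr : 1 < r0 + s) :
    prof r0 k k' E =ᶠ[𝓝 s] fun s => (k' / (r0 + s) + Real.smoothTransition (5 + s))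
      + Real.smoothTransition (4 + s) * (-(E * s) - (k' / (r0 + s) + Real.smoothTransition (5 + s))) := by
  filter_upwards [gt_mem_nhds hs, lt_mem_nhds (show 1 - r0 < s by linarith)] with s' hs' h2
  unfold prof
  rw [Real.smoothTransition.one_of_one_le (by linarith : (1 : ℝ) ≤ 4 - s'), rec_eq _ (by linarith)]
  ring

lemma fd (x : ℝ) : HasDerivAt Real.smoothTransition (deriv Real.smoothTransition x) x :=
  ((contDiff_infty_iff_deriv.mp Real.smoothTransition.contDiff).1 x).hasDerivAt

lemma fdn (x : ℝ) : 0 ≤ deriv Real.smoothTransition x :=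
  Real.smoothTransition.monotone.deriv_nonneg

lemma fd_gt (x : ℝ) (hx : 1 < x) : deriv Real.smoothTransition x = 0 := by
  have h : Real.smoothTransition =ᶠ[𝓝 x] fun _ => 1 := by
    filter_upwards [lt_mem_nhds hx] with y hy
    exact Real.smoothTransition.one_of_one_le hy.le
  rw [h.deriv_eq]
  simp

lemma fd_lt (x : ℝ) (hx : x < 0) : deriv Real.smoothTransition x = 0 := by
  have h : Real.smoothTransition =ᶠ[𝓝 x] fun _ => 0 := by
    filter_upwards [gt_mem_nhds hx] with y hy
    exact Real.smoothTransition.zero_of_nonpos hy.le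
  rw [h.deriv_eq]
  simp

lemma alg_right (r f5 f5' f4 f4' k E s : ℝ) (hr : 0 < r) (hk : 0 ≤ k) (hkr : k / r ≤ 1)
    (hk2 : k / r ^ 2 ≤ 1) (hE : 1 ≤ E) (hs : 3 ≤ s) (h5 : 0 ≤ f5) (h51 : f5 ≤ 1) (h5' : 0 ≤ f5')
    (h4 : 0 ≤ f4) (h4' : 0 ≤ f4') (hc : f4 = 0 ∨ (f5 = 1 ∧ f5' = 0)) :
    k * (k + 1) / r ^ 2 ≤ -((-(k / r ^ 2) - f5') + (-f4' * (E * s - (k / r + f5))
      + f4 * (E - (-(k / r ^ 2) - f5')))) + ((k / r + f5) + f4 * (E * s - (k / r + f5))) ^ 2 := by
  have h1 : k * (k + 1) / r ^ 2 = (k / r) ^ 2 + k / r ^ 2 := by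
    field_simp
  rw [h1]
  set a := k / r with ha
  set b := k / r ^ 2 with hb
  have ha0 : 0 ≤ a := by positivity
  have hb0 : 0 ≤ b := by positivity
  have hEs : 3 * E ≤ E * s := by nlinarith
  have hp : 0 ≤ E * s - (a + f5) := by nlinarith
  have t1 : 0 ≤ f4' * (E * s - (a + f5)) := mul_nonneg h4' hp
  have t2 : 0 ≤ a * f5 := mul_nonneg ha0 h5
  have t3 : 0 ≤ f4 * (2 * (a + f5) * (E * s - (a + f5)) - E - b - f5') := by
    rcases hc with hc | ⟨hc1, hc2⟩
    · rw [hc, zero_mul]
    · rw [hc1, hc2]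
      apply mul_nonneg h4
      have : 1 * (3 * E - 2) ≤ (a + 1) * (E * s - (a + 1)) := by
        apply mul_le_mul (by linarith) (by linarith) (by linarith) (by linarith)
      nlinarith
  nlinarith [sq_nonneg (f4 * (E * s - (a + f5))), sq_nonneg f5]

lemma alg_left (r f5 f5' f4 f4' k E s : ℝ) (hr : 0 < r) (hk : 0 ≤ k) (hE : 1 ≤ E) (hs : s ≤ -3)
    (h5 : 0 ≤ f5) (h51 : f5 ≤ 1) (h5' : 0 ≤ f5') (h4 : 0 ≤ f4) (h4' : 0 ≤ f4')
    (hc : (f4 = 0 ∧ f4' = 0) ∨ (k / r ≤ 1 ∧ (f4 = 0 ∨ (f5 = 1 ∧ f5' = 0)))) :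
    k * (k - 1) / r ^ 2 ≤ ((-(k / r ^ 2) + f5') + (f4' * (-(E * s) - (k / r + f5))
      + f4 * (-E - (-(k / r ^ 2) + f5')))) + ((k / r + f5) + f4 * (-(E * s) - (k / r + f5))) ^ 2 := by
  have h1 : k * (k - 1) / r ^ 2 = (k / r) ^ 2 - k / r ^ 2 := by
    field_simp
  rw [h1]
  set a := k / r with ha
  set b := k / r ^ 2 with hb
  have ha0 : 0 ≤ a := by positivity
  have hb0 : 0 ≤ b := by positivity
  have hEs : 3 * E ≤ -(E * s) := by nlinarith
  have t2 : 0 ≤ a * f5 := mul_nonneg ha0 h5
  rcases hc with ⟨hc1, hc2⟩ | ⟨har, hc⟩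
  · rw [hc1, hc2]
    nlinarith [sq_nonneg f5]
  · have hp : 0 ≤ -(E * s) - (a + f5) := by nlinarith
    have t1 : 0 ≤ f4' * (-(E * s) - (a + f5)) := mul_nonneg h4' hp
    have t3 : 0 ≤ f4 * (2 * (a + f5) * (-(E * s) - (a + f5)) - E + b - f5') := by
      rcases hc with hc | ⟨hc1, hc2⟩
      · rw [hc, zero_mul]
      · rw [hc1, hc2]
        apply mul_nonneg h4
        have : 1 * (3 * E - 2) ≤ (a + 1) * (-(E * s) - (a + 1)) := by
          apply mul_le_mul (by linarith) (by linarith) (by linarith) (by linarith)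
        nlinarith
    nlinarith [sq_nonneg (f4 * (-(E * s) - (a + f5))), sq_nonneg f5]

lemma prof_ineq_right (r0 k k' E s : ℝ) (hr : 1 ≤ r0) (hk : 0 ≤ k) (hkr : k ≤ r0) (hE : 1 ≤ E)
    (hs : 3 ≤ s) :
    k * (k + 1) / (r0 + s) ^ 2 ≤ deriv (prof r0 k k' E) s + prof r0 k k' E s ^ 2 := by
  have hpos : 0 < r0 + s := by linarith
  have he := prof_right r0 k k' E s (by linarith) hr
  have hd1 : HasDerivAt (fun s : ℝ => k / (r0 + s)) (-(k / (r0 + s) ^ 2)) s := by
    have h := ((hasDerivAt_id s).const_add r0)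
    have h2 := (hasDerivAt_const s k).div h hpos.ne'
    refine h2.congr_deriv ?_
    simp only [id]
    ring
  have hd5 : HasDerivAt (fun s : ℝ => Real.smoothTransition (5 - s))
      (-deriv Real.smoothTransition (5 - s)) s := by
    have h3 : HasDerivAt (fun s : ℝ => 5 - s) (-1) s := by
      simpa using (hasDerivAt_id s).const_sub 5
    have h4 := (fd (5 - s)).comp s h3
    refine h4.congr_deriv ?_
    ring
  have hd4 : HasDerivAt (fun s : ℝ => Real.smoothTransition (4 - s))
      (-deriv Real.smoothTransition (4 - s)) s := by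
    have h3 : HasDerivAt (fun s : ℝ => 4 - s) (-1) s := by
      simpa using (hasDerivAt_id s).const_sub 4
    have h4 := (fd (4 - s)).comp s h3
    refine h4.congr_deriv ?_
    ring
  have hdE : HasDerivAt (fun s : ℝ => E * s) E s := by
    simpa using (hasDerivAt_id s).const_mul E
  have hA := hd1.add hd5
  have hall := (hA.add (hd4.mul (hdE.sub hA))).neg
  have hderiv : deriv (prof r0 k k' E) s = -((-(k / (r0 + s) ^ 2) - deriv Real.smoothTransition (5 - s))
      + (-deriv Real.smoothTransition (4 - s) * (E * s - (k / (r0 + s) + Real.smoothTransition (5 - s)))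
      + Real.smoothTransition (4 - s) * (E - (-(k / (r0 + s) ^ 2)
        - deriv Real.smoothTransition (5 - s))))) := by
    rw [he.deriv_eq]
    refine hall.deriv.trans ?_
    simp only [Pi.add_apply, Pi.sub_apply]
    ring
  rw [hderiv, he.eq_of_nhds]
  have e : (-((k / (r0 + s) + Real.smoothTransition (5 - s)) + Real.smoothTransition (4 - s)
      * (E * s - (k / (r0 + s) + Real.smoothTransition (5 - s))))) ^ 2
      = ((k / (r0 + s) + Real.smoothTransition (5 - s)) + Real.smoothTransition (4 - s)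
      * (E * s - (k / (r0 + s) + Real.smoothTransition (5 - s)))) ^ 2 := by ring
  rw [e]
  apply alg_right (r0 + s) _ _ _ _ k E s hpos hk
  · rw [div_le_one hpos]
    linarith
  · rw [div_le_one (by positivity)]
    nlinarith
  · exact hE
  · exact hs
  · exact Real.smoothTransition.nonneg _
  · exact Real.smoothTransition.le_one _
  · exact fdn _
  · exact Real.smoothTransition.nonneg _
  · exact fdn _
  · rcases lt_or_ge s 4 with h | h
    · right
      exact ⟨Real.smoothTransition.one_of_one_le (by linarith), fd_gt _ (by linarith)⟩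
    · left
      exact Real.smoothTransition.zero_of_nonpos (by linarith)

lemma prof_ineq_left (r0 k k' E s : ℝ) (_hr : 5 ≤ r0) (hk : 0 ≤ k') (hkr : k' + 4 ≤ r0) (hE : 1 ≤ E)
    (hs : s ≤ -3) (hrs : 1 < r0 + s) :
    k' * (k' - 1) / (r0 + s) ^ 2 ≤ deriv (prof r0 k k' E) s + prof r0 k k' E s ^ 2 := by
  have hpos : 0 < r0 + s := by linarith
  have he := prof_left r0 k k' E s (by linarith) hrs
  have hd1 : HasDerivAt (fun s : ℝ => k' / (r0 + s)) (-(k' / (r0 + s) ^ 2)) s := by
    have h := ((hasDerivAt_id s).const_add r0)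
    have h2 := (hasDerivAt_const s k').div h hpos.ne'
    refine h2.congr_deriv ?_
    simp only [id]
    ring
  have hd5 : HasDerivAt (fun s : ℝ => Real.smoothTransition (5 + s))
      (deriv Real.smoothTransition (5 + s)) s := by
    have h3 : HasDerivAt (fun s : ℝ => 5 + s) 1 s := by
      simpa using (hasDerivAt_id s).const_add 5
    have h4 := (fd (5 + s)).comp s h3
    refine h4.congr_deriv ?_
    ring
  have hd4 : HasDerivAt (fun s : ℝ => Real.smoothTransition (4 + s))
      (deriv Real.smoothTransition (4 + s)) s := by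
    have h3 : HasDerivAt (fun s : ℝ => 4 + s) 1 s := by
      simpa using (hasDerivAt_id s).const_add 4
    have h4 := (fd (4 + s)).comp s h3
    refine h4.congr_deriv ?_
    ring
  have hdE : HasDerivAt (fun s : ℝ => -(E * s)) (-E) s := by
    have h := ((hasDerivAt_id s).const_mul E).neg
    rw [mul_one] at h
    exact h
  have hA := hd1.add hd5
  have hall := hA.add (hd4.mul (hdE.sub hA))
  have hderiv : deriv (prof r0 k k' E) s = (-(k' / (r0 + s) ^ 2) + deriv Real.smoothTransition (5 + s))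
      + (deriv Real.smoothTransition (4 + s) * (-(E * s) - (k' / (r0 + s)
        + Real.smoothTransition (5 + s)))
      + Real.smoothTransition (4 + s) * (-E - (-(k' / (r0 + s) ^ 2)
        + deriv Real.smoothTransition (5 + s)))) := by
    rw [he.deriv_eq]
    refine hall.deriv.trans ?_
    simp only [Pi.add_apply, Pi.sub_apply]
  rw [hderiv, he.eq_of_nhds]
  apply alg_left (r0 + s) _ _ _ _ k' E s hpos hk hE hs
  · exact Real.smoothTransition.nonneg _
  · exact Real.smoothTransition.le_one _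
  · exact fdn _
  · exact Real.smoothTransition.nonneg _
  · exact fdn _
  · rcases lt_or_ge s (-4) with h | h
    · left
      exact ⟨Real.smoothTransition.zero_of_nonpos (by linarith), fd_lt _ (by linarith)⟩
    · right
      refine ⟨?_, ?_⟩
      · rw [div_le_one hpos]
        linarith
      · rcases eq_or_lt_of_le h with h | h
        · left
          exact Real.smoothTransition.zero_of_nonpos (by linarith)
        · right
          exact ⟨Real.smoothTransition.one_of_one_le (by linarith), fd_gt _ (by linarith)⟩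

lemma prof_far_right (r0 k k' E s : ℝ) (hr : 1 ≤ r0) (hs : 5 ≤ s) :
    prof r0 k k' E s = -(k / (r0 + s)) := by
  rw [(prof_right r0 k k' E s (by linarith) hr).eq_of_nhds,
    Real.smoothTransition.zero_of_nonpos (by linarith : 5 - s ≤ 0),
    Real.smoothTransition.zero_of_nonpos (by linarith : 4 - s ≤ 0)]
  ring

lemma prof_far_left (r0 k k' E s : ℝ) (hr : 1 < r0 + s) (hs : s ≤ -5) :
    prof r0 k k' E s = k' / (r0 + s) := by
  rw [(prof_left r0 k k' E s (by linarith) hr).eq_of_nhds,
    Real.smoothTransition.zero_of_nonpos (by linarith : 5 + s ≤ 0),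
    Real.smoothTransition.zero_of_nonpos (by linarith : 4 + s ≤ 0)]
  ring

end Pool.Agent.Y860.BS
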