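import Pool.Agent.H3R2.Reg
import Pool.Agent.Y860.BS.W

/-!
The solution of the one-dimensional problem with a general profile `w` (the text of
`Pool.Agent.H3R2.Sol` and `Pool.Agent.H3R2.Reg` with a structure which keeps only the parts used).
-/

open Set Filter Topology Real MeasureTheory
open scoped ContDiff

namespace Pool.Agent.Y860.BS

open Pool.Agent.H3R2

/-- Data of the construction. -/
structure Dat where
  P : Prof
  w : ℝ → ℝ
  hw : ContDiff ℝ ∞ w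
  g : ℝ → ℝ
  hg : ContDiff ℝ ∞ g
  hgd : ∀ s, HasDerivAt g (w s) s
  y : ℝ × ℝ → ℝ
  hy : ContDiff ℝ ∞ y
  hXy : ∀ x t, X P P.nu (y (x, t)) t = x
  hyX : ∀ s t, y (X P P.nu s t, t) = s

lemma exists_dat (P : Prof) (w : ℝ → ℝ) (hw : ContDiff ℝ ∞ w) :
    ∃ D : Dat, D.P = P ∧ D.w = w := by
  have hgd : ∀ s, HasDerivAt (fun s => ∫ u in (0 : ℝ)..s, w u) (w s) s := by
    intro s
    exact intervalIntegral.integral_hasDerivAt_right (hw.continuous.intervalIntegrable _ _)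
      (hw.continuous.stronglyMeasurableAtFilter _ _) hw.continuous.continuousAt
  have hg : ContDiff ℝ ∞ (fun s => ∫ u in (0 : ℝ)..s, w u) := by
    rw [contDiff_infty_iff_deriv]
    refine ⟨fun s => (hgd s).differentiableAt, ?_⟩
    have : deriv (fun s => ∫ u in (0 : ℝ)..s, w u) = w := by
      funext s
      exact (hgd s).deriv
    rw [this]
    exact hw
  obtain ⟨y, hy, h1, h2⟩ := exists_inverse (fun p => X P P.nu p.1 p.2) (fun p => X1 P P.nu p.1 p.2)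
    (cdX P P.nu) (fun s t => hX P P.nu s t) (fun p => X1_pos P P.nu p.1 p.2) (1 / 2)
    (fun s t => X_sub P P.nu s t)
  exact ⟨⟨P, w, hw, _, hg, hgd, y, hy, h1, h2⟩, rfl, rfl⟩

variable (D : Dat)

/-- The time-dependent potential -/
noncomputable def Dat.V (p : ℝ × ℝ) : ℝ := Vh D.P D.P.nu D.w (D.y p) p.2

/-- log-modulus and phase of the solution -/
noncomputable def Dat.h (x t : ℝ) : ℝ :=
  D.g (D.y (x, t)) - log (X1 D.P D.P.nu (D.y (x, t)) t) / 2
noncomputable def Dat.th (x t : ℝ) : ℝ := T D.P D.P.nu (D.y (x, t)) t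

/-- The solution -/
noncomputable def Dat.psi (t x : ℝ) : ℂ :=
  Complex.exp ((D.h x t : ℂ) + (D.th x t : ℂ) * Complex.I)

/-! ### derivatives of `y` -/

lemma Dat.y_x (x t : ℝ) : HasDerivAt (fun x => D.y (x, t)) (1 / X1 D.P D.P.nu (D.y (x, t)) t) x := by
  have hd : Differentiable ℝ D.y := D.hy.differentiable (by simp)
  have h1 : HasDerivAt (fun x => D.y (x, t)) (fderiv ℝ D.y (x, t) (1, 0)) x := by
    have h6 : HasDerivAt (fun x : ℝ => (x, t)) ((1 : ℝ), (0 : ℝ)) x :=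
      (hasDerivAt_id x).prodMk (hasDerivAt_const x t)
    exact (hd (x, t)).hasFDerivAt.comp_hasDerivAt x h6
  have h2 := (hX D.P D.P.nu (D.y (x, t)) t).comp x h1
  have h3 : (fun s => X D.P D.P.nu s t) ∘ (fun x => D.y (x, t)) = fun x => x := by
    funext x
    exact D.hXy x t
  rw [h3] at h2
  have h4 := h2.unique (hasDerivAt_id x)
  refine h1.congr_deriv ?_
  rw [eq_div_iff (X1_pos D.P D.P.nu _ t).ne', mul_comm]
  exact h4

lemma Dat.y_t (x t : ℝ) : HasDerivAt (fun t => D.y (x, t))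
    (-Xt D.P D.P.nu (D.y (x, t)) t / X1 D.P D.P.nu (D.y (x, t)) t) t := by
  have hd : Differentiable ℝ D.y := D.hy.differentiable (by simp)
  have h1 : HasDerivAt (fun t => D.y (x, t)) (fderiv ℝ D.y (x, t) (0, 1)) t := by
    have h6 : HasDerivAt (fun t : ℝ => (x, t)) ((0 : ℝ), (1 : ℝ)) t :=
      (hasDerivAt_const t x).prodMk (hasDerivAt_id t)
    exact (hd (x, t)).hasFDerivAt.comp_hasDerivAt t h6
  have hF : Differentiable ℝ (fun p : ℝ × ℝ => X D.P D.P.nu p.1 p.2) :=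
    (cdX D.P D.P.nu).differentiable (by simp)
  have h3 := chain_t hF h1 (hX D.P D.P.nu (D.y (x, t)) t) (hXt D.P D.P.nu (D.y (x, t)) t)
  have h4 : (fun t => X D.P D.P.nu (D.y (x, t)) t) = fun _ => x := by
    funext t
    exact D.hXy x t
  simp only at h3
  rw [h4] at h3
  have h5 := h3.unique (hasDerivAt_const t x)
  refine h1.congr_deriv ?_
  rw [eq_div_iff (X1_pos D.P D.P.nu _ t).ne']
  linarith

/-! ### derivatives of the log-modulus and the phase -/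

lemma Dat.h_x (x t : ℝ) : HasDerivAt (fun x => D.h x t) (H1 D.P D.P.nu D.w (D.y (x, t)) t) x := by
  have hp := (X1_pos D.P D.P.nu (D.y (x, t)) t).ne'
  have hy := D.y_x x t
  have h1 := (D.hgd (D.y (x, t))).comp x hy
  have h2 := (hX1 D.P D.P.nu (D.y (x, t)) t).comp x hy
  have h3 := (HasDerivAt.log h2 hp).div_const 2
  have h4 := h1.sub h3
  refine h4.congr_deriv ?_
  simp only [Function.comp, H1]
  field_simp

lemma Dat.H1_x (x t : ℝ) : HasDerivAt (fun x => H1 D.P D.P.nu D.w (D.y (x, t)) t)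
    (H2 D.P D.P.nu D.w (D.y (x, t)) t) x := by
  have hp := (X1_pos D.P D.P.nu (D.y (x, t)) t).ne'
  have hy := D.y_x x t
  have hwd : HasDerivAt D.w (deriv D.w (D.y (x, t))) (D.y (x, t)) :=
    ((contDiff_infty_iff_deriv.mp D.hw).1 _).hasDerivAt
  have k1 := hX1 D.P D.P.nu (D.y (x, t)) t
  have k2 := hX2 D.P D.P.nu (D.y (x, t)) t
  have h1 : HasDerivAt (fun s => H1 D.P D.P.nu D.w s t)
      (((deriv D.w (D.y (x, t)) - (X3 D.P D.P.nu (D.y (x, t)) t * (2 * X1 D.P D.P.nu (D.y (x, t)) t)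
        - X2 D.P D.P.nu (D.y (x, t)) t * (2 * X2 D.P D.P.nu (D.y (x, t)) t)) /
      (2 * X1 D.P D.P.nu (D.y (x, t)) t) ^ 2) * X1 D.P D.P.nu (D.y (x, t)) t
      - (D.w (D.y (x, t)) - X2 D.P D.P.nu (D.y (x, t)) t / (2 * X1 D.P D.P.nu (D.y (x, t)) t))
        * X2 D.P D.P.nu (D.y (x, t)) t) / X1 D.P D.P.nu (D.y (x, t)) t ^ 2) (D.y (x, t)) := by
    unfold H1
    exact (hwd.sub (k2.div (k1.const_mul 2) (mul_ne_zero two_ne_zero hp))).div k1 hp
  have h2 := h1.comp x hy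
  refine h2.congr_deriv ?_
  unfold H2
  rw [mul_one_div]

lemma Dat.th_x (x t : ℝ) : HasDerivAt (fun x => D.th x t) (Xt D.P D.P.nu (D.y (x, t)) t / 2) x := by
  have hp := (X1_pos D.P D.P.nu (D.y (x, t)) t).ne'
  have h := (hTs D.P D.P.nu (D.y (x, t)) t).comp x (D.y_x x t)
  refine h.congr_deriv ?_
  field_simp

lemma Dat.th_xx (x t : ℝ) : HasDerivAt (fun x => Xt D.P D.P.nu (D.y (x, t)) t / 2)
    (X1t D.P D.P.nu (D.y (x, t)) t / X1 D.P D.P.nu (D.y (x, t)) t / 2) x := by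
  have h := ((hXts D.P D.P.nu (D.y (x, t)) t).comp x (D.y_x x t)).div_const 2
  refine h.congr_deriv ?_
  rw [mul_one_div]

lemma Dat.h_t (x t : ℝ) : HasDerivAt (fun t => D.h x t)
    (-(X1t D.P D.P.nu (D.y (x, t)) t / X1 D.P D.P.nu (D.y (x, t)) t / 2)
      - H1 D.P D.P.nu D.w (D.y (x, t)) t * Xt D.P D.P.nu (D.y (x, t)) t) t := by
  have hp := (X1_pos D.P D.P.nu (D.y (x, t)) t).ne'
  have hy := D.y_t x t
  have h1 := (D.hgd (D.y (x, t))).comp t hy
  have hF : Differentiable ℝ (fun p : ℝ × ℝ => X1 D.P D.P.nu p.1 p.2) :=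
    (cdX1 D.P D.P.nu).differentiable (by simp)
  have h2 := chain_t hF hy (hX1 D.P D.P.nu (D.y (x, t)) t) (hX1t D.P D.P.nu (D.y (x, t)) t)
  have h3 := (HasDerivAt.log h2 hp).div_const 2
  have h4 := h1.sub h3
  refine h4.congr_deriv ?_
  simp only [H1]
  field_simp
  ring

lemma Dat.th_t (x t : ℝ) : HasDerivAt (fun t => D.th x t)
    (Tt D.P D.P.nu (D.y (x, t)) t - Xt D.P D.P.nu (D.y (x, t)) t ^ 2 / 2) t := by
  have hp := (X1_pos D.P D.P.nu (D.y (x, t)) t).ne'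
  have hF : Differentiable ℝ (fun p : ℝ × ℝ => T D.P D.P.nu p.1 p.2) :=
    (cdT D.P D.P.nu).differentiable (by simp)
  have h2 := chain_t hF (D.y_t x t) (hTs D.P D.P.nu (D.y (x, t)) t) (hTt D.P D.P.nu (D.y (x, t)) t)
  refine h2.congr_deriv ?_
  field_simp
  ring


/-! ### regularity and periodicity -/

lemma Dat.cd_yp : ContDiff ℝ ∞ (fun p : ℝ × ℝ => (D.y p, p.2)) := D.hy.prodMk contDiff_snd

lemma Dat.cdV : ContDiff ℝ ∞ D.V := by
  have h : ContDiff ℝ ∞ ((fun p : ℝ × ℝ => Vh D.P D.P.nu D.w p.1 p.2) ∘ fun p => (D.y p, p.2)) :=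
    (cdVh D.P D.P.nu D.hw).comp D.cd_yp
  have e : D.V = (fun p : ℝ × ℝ => Vh D.P D.P.nu D.w p.1 p.2) ∘ fun p => (D.y p, p.2) := by
    funext p
    rfl
  rw [e]
  exact h

lemma Dat.cdh : ContDiff ℝ ∞ (fun p : ℝ × ℝ => D.h p.1 p.2) := by
  unfold Dat.h
  have h1 : ContDiff ℝ ∞ (fun p : ℝ × ℝ => D.g (D.y p)) := D.hg.comp D.hy
  have h2 : ContDiff ℝ ∞ (fun p : ℝ × ℝ => X1 D.P D.P.nu (D.y p) p.2) :=
    (cdX1 D.P D.P.nu).comp D.cd_yp
  exact h1.sub ((h2.log (fun p => (X1_pos D.P D.P.nu _ _).ne')).div_const 2)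

lemma Dat.cdth : ContDiff ℝ ∞ (fun p : ℝ × ℝ => D.th p.1 p.2) := (cdT D.P D.P.nu).comp D.cd_yp

lemma Dat.y_out (x t : ℝ) (hx : 5 / 2 < |x|) : D.y (x, t) = x := by
  have h := D.hyX x t
  rwa [X_out D.P D.P.nu x t hx] at h

noncomputable def Dat.per : ℝ := 2 * π / D.P.nu

lemma Dat.per_pos : 0 < D.per := by
  unfold Dat.per
  have := D.P.nu_pos
  positivity

lemma Dat.nu_per (t : ℝ) : D.P.nu * (t + D.per) = D.P.nu * t + 2 * π := by
  unfold Dat.per
  have := D.P.nu_pos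
  field_simp

lemma Dat.cos1_per (t : ℝ) : cos (D.P.nu * (t + D.per)) = cos (D.P.nu * t) := by
  rw [D.nu_per, cos_add_two_pi]
lemma Dat.sin1_per (t : ℝ) : sin (D.P.nu * (t + D.per)) = sin (D.P.nu * t) := by
  rw [D.nu_per, sin_add_two_pi]
lemma Dat.cos2_per (t : ℝ) : cos (2 * (D.P.nu * (t + D.per))) = cos (2 * (D.P.nu * t)) := by
  rw [D.nu_per, show 2 * (D.P.nu * t + 2 * π) = 2 * (D.P.nu * t) + 2 * π + 2 * π by ring,
    cos_add_two_pi, cos_add_two_pi]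
lemma Dat.sin2_per (t : ℝ) : sin (2 * (D.P.nu * (t + D.per))) = sin (2 * (D.P.nu * t)) := by
  rw [D.nu_per, show 2 * (D.P.nu * t + 2 * π) = 2 * (D.P.nu * t) + 2 * π + 2 * π by ring,
    sin_add_two_pi, sin_add_two_pi]

lemma Dat.X_per (s t : ℝ) : X D.P D.P.nu s (t + D.per) = X D.P D.P.nu s t := by
  unfold X
  rw [D.cos1_per, D.cos2_per]

lemma Dat.y_per (x t : ℝ) : D.y (x, t + D.per) = D.y (x, t) := by
  have h := D.hyX (D.y (x, t)) (t + D.per)
  rw [D.X_per, D.hXy] at h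
  exact h

lemma Dat.V_per (x t : ℝ) : D.V (x, t + D.per) = D.V (x, t) := by
  unfold Dat.V
  simp only
  rw [D.y_per]
  unfold Vh H2 H1 Xt Tt X1 X2 X3
  rw [D.cos1_per, D.cos2_per, D.sin1_per, D.sin2_per]


end Pool.Agent.Y860.BS
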