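import Pool.Agent.Y860.BS.Def

/-!
Statements of three self-contained parts.
-/

open Set Filter Topology MeasureTheory
open scoped ContDiff NNReal
open Laplacian InnerProductSpace

namespace Pool.Agent.Y860.BS

/-- the linear form `ζ · x` -/
noncomputable def lin {n : ℕ} (ζ : Fin n → ℂ) (x : Sp n) : ℂ := ∑ k, ζ k * (x k : ℂ)

/-- Laplacian of `(ζ · x)^m Φ(|x|²)` for isotropic `ζ`. -/
def StLap : Prop :=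
  ∀ (n m : ℕ) (ζ : Fin n → ℂ), ∑ k, ζ k ^ 2 = 0 → ∀ Φ : ℝ → ℂ, ContDiff ℝ ∞ Φ → ∀ x : Sp n,
    (Δ (fun y : Sp n => lin ζ y ^ m * Φ (‖y‖ ^ 2))) x =
      lin ζ x ^ m *
        (4 * ((‖x‖ ^ 2 : ℝ) : ℂ) * deriv (deriv Φ) (‖x‖ ^ 2)
          + ((2 * n + 4 * m : ℕ) : ℂ) * deriv Φ (‖x‖ ^ 2))

/-- From a uniform majorant to the curve in `L²` and the uniform weighted bound. -/
def StL2 : Prop :=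
  ∀ (n : ℕ), 1 ≤ n → ∀ δ : ℝ, 0 ≤ δ → ∀ ψ : ℝ → Sp n → ℂ,
    ContDiff ℝ ∞ (fun p : ℝ × Sp n => ψ p.1 p.2) → ∀ C : ℝ,
    (∀ t x, jap x ^ δ * ‖ψ t x‖ ≤ C * (1 + ‖x‖ ^ 2) ^ (-(n : ℝ) / 2)) →
    (∀ t, InL2 (ψ t)) ∧
    (∀ t₀, Tendsto (fun t => l2norm (fun x => ψ t x - ψ t₀ x)) (𝓝 t₀) (𝓝 0)) ∧
    ∃ C' : ℝ≥0, ∀ t : ℝ, l2norm (fun x : Sp n => ((jap x ^ δ : ℝ) : ℂ) * ψ t x) ≤ C'

end Pool.Agent.Y860.BS
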